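import Pool.Agent.R384.X.Main7

/-!
# The Selmer groups of odd rank: the dimension is at most one
-/

set_option autoImplicit false
set_option linter.unusedSectionVars false

namespace Pool.Agent.R384

open Pool.Agent.Y715.Red Pool.Agent.Y715.Nr Pool.Agent.W237.RK
open Pool.Agent.Y715.Gi (QB KK GK i₀_mem gk_fix)
open Pool.Agent.Y715.Df (Cmp exists_cmp)
open Pool.Agent.Y715.Lc (norm_two_odd)

open scoped Classical

variable {i₀ : QB} (hi : i₀ ^ 2 = i₀ - 2)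

variable {χ : GK i₀ →* ℤ_[2]ˣ} {m : OO} {r : QB}

/-- the Selmer cocycles -/
structure Sl (χ : GK i₀ →* ℤ_[2]ˣ) (ϖ : OO) (c : GK i₀ → ℚ_[2]) : Prop where
  coc : Coc χ c
  odd : ∀ (p : ℕ) [Fact p.Prime] (ι : QB →ₐ[ℚ] PadicAlgCl p), p ≠ 2 → CobOn χ (II ι) c
  str : ∀ ι : QB →ₐ[ℚ] PadicAlgCl 2, ‖ι (em hi ϖ)‖ < 1 → CobOn χ (DD ι) c

lemma CobOn.lin {G : Type} [Group G] [TopologicalSpace G] {χ : G →* ℤ_[2]ˣ} {D : Set G}
    {c c' : G → ℚ_[2]} (h : CobOn χ D c) (h' : CobOn χ D c') (a b y : ℚ_[2]) :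
    CobOn χ D fun σ => a * c σ + b * c' σ + (vl χ σ - 1) * y := by
  obtain ⟨x, hx⟩ := h
  obtain ⟨x', hx'⟩ := h'
  refine ⟨a * x + b * x' + y, fun σ hσ => ?_⟩
  simp only [hx σ hσ, hx' σ hσ]
  ring

lemma Coc.lin {G : Type} [Group G] [TopologicalSpace G] {χ : G →* ℤ_[2]ˣ}
    {c c' : G → ℚ_[2]} (hχ : Continuous χ) (h : Coc χ c) (h' : Coc χ c') (a b y : ℚ_[2]) :
    Coc χ fun σ => a * c σ + b * c' σ + (vl χ σ - 1) * y := by
  refine ⟨?_, fun σ τ => ?_⟩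
  · have h1 := cont_vl hχ
    have h2 := h.cont
    have h3 := h'.cont
    fun_prop
  · simp only [h.mul, h'.mul, vl_mul]
    ring

variable {hi}

lemma Sl.lin {ϖ : OO} (hχ : Continuous χ) {c c' : GK i₀ → ℚ_[2]} (h : Sl hi χ ϖ c)
    (h' : Sl hi χ ϖ c') (a b y : ℚ_[2]) :
    Sl hi χ ϖ fun σ => a * c σ + b * c' σ + (vl χ σ - 1) * y :=
  ⟨h.coc.lin hχ h'.coc a b y, fun p _ ι hp => (h.odd p ι hp).lin (h'.odd p ι hp) a b y,
    fun ι hι => (h.str ι hι).lin (h'.str ι hι) a b y⟩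

variable (hi)

lemma norm_five {x : PadicAlgCl 2} (h : ‖-x - 5‖ ≤ 1 / 8) : ‖x‖ = 1 := by
  rw [← norm_neg]
  exact norm_one_of5 h

/-- there is an element of the decomposition group that moves `√m` -/
lemma exists_dec3 (cd : ChiD hi χ m r) (ι : QB →ₐ[ℚ] PadicAlgCl 2)
    (h5 : ‖-(em (iw hi ι) m) - 5‖ ≤ 1 / 8) : ∃ σ ∈ (DD ι : Set (GK i₀)), σ r = -r := by
  by_contra hcon
  push Not at hcon
  have hfix : ∀ τ : Au 2, τ (ι r) = ι r := by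
    intro τ
    refine fix_D (fun σ hσ => ?_) τ (two_fix (iw hi ι) τ)
    rcases rt_or hi cd.hr σ with h | h
    · exact h
    · exact absurd h (hcon σ hσ)
  have h1 : (ι r) ^ 2 = em (iw hi ι) m := by rw [← map_pow, cd.hr, ι_em]
  have h2 : ‖ι r‖ = 1 := by
    have h3 := norm_five h5
    rw [← h1, norm_pow] at h3
    exact (pow_eq_one_iff_of_nonneg (norm_nonneg _) two_ne_zero).1 h3
  have h3 := sq_mod_eight h2 hfix
  rw [h1] at h3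
  have h6 : ‖((-6 : ℤ) : PadicAlgCl 2)‖ ≤ 1 / 8 := by
    have e : ((-6 : ℤ) : PadicAlgCl 2) = (em (iw hi ι) m - 1) + (-(em (iw hi ι) m) - 5) := by
      push_cast
      ring
    rw [e]
    exact add_le h3 h5
  rw [even_norm (z := -6) (k := -3) (n := 1) (by norm_num) (by norm_num)] at h6
  norm_num at h6

/-- the residual data of a cocycle -/
structure RD {n : ℕ} (q : Fin n → OO) (m : OO) (ϖ ϖ' : OO) (ι : QB →ₐ[ℚ] PadicAlgCl 2)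
    (c : GK i₀ → ℚ_[2]) (δ : OO) (s : QB) : Prop where
  sqf : Squarefree δ
  hs : s ^ 2 = em hi δ
  hk : ∀ σ : GK i₀, σ s = s ↔ md c σ = 0
  nd : ¬ ϖ ∣ δ
  st : ‖em (iw hi ι) δ - 1‖ ≤ 1 / 8 ∨ ‖em (iw hi ι) (δ * m) - 1‖ ≤ 1 / 8
  sup : ∀ π, Prime π → π ∣ δ → π ∣ ϖ' ∨ π ∣ s7 ∨ ∃ i, π ∣ q i
  loc : ∀ i, (¬ q i ∣ δ ∧ Sqm (q i) δ) ∨
      ∃ δ1 m1, δ = q i * δ1 ∧ m = q i * m1 ∧ Sqm (q i) (δ1 * m1)
  loc7 : (¬ s7 ∣ δ ∧ Sqm s7 δ) ∨
      ∃ δ1 m1, δ = s7 * δ1 ∧ m = s7 * m1 ∧ Sqm s7 (δ1 * m1)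

/-- the local condition at the strict place -/
lemma loc_strict3 (cd : ChiD hi χ m r) {c : GK i₀ → ℚ_[2]} (hc1 : ∀ σ, ‖c σ‖ ≤ 1)
    {ϖ : OO} (hϖ : Prime ϖ)
    {ι : QB →ₐ[ℚ] PadicAlgCl 2} (hι : ‖em (iw hi ι) ϖ‖ < 1)
    (h5 : ‖-(em (iw hi ι) m) - 5‖ ≤ 1 / 8)
    (hD : CobOn χ (DD ι) c) {δ : OO} (hδ : Squarefree δ) {s : QB}
    (hs : s ^ 2 = em hi δ) (hk : ∀ σ : GK i₀, σ s = s ↔ md c σ = 0) :
    ¬ ϖ ∣ δ ∧ (‖em (iw hi ι) δ - 1‖ ≤ 1 / 8 ∨ ‖em (iw hi ι) (δ * m) - 1‖ ≤ 1 / 8) := by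
  obtain ⟨σ₀, h0, h2⟩ := exists_dec3 hi cd ι h5
  have hm1 := norm_five h5
  have hϖm : ¬ ϖ ∣ m := by
    rw [dvd_iff (iw hi ι) hϖ hι, hm1]
    exact lt_irrefl _
  have hsq : (ι s) ^ 2 = em (iw hi ι) δ := by rw [← map_pow, hs, ι_em]
  have key : ∀ {x : OO} {y : PadicAlgCl 2}, y ^ 2 = em (iw hi ι) x → ¬ ϖ ∣ x →
      (∀ τ : Au 2, τ y = y) → ‖em (iw hi ι) x - 1‖ ≤ 1 / 8 := by
    intro x y hy hx hfix
    have h3 := eq_one_of_not_lt (iw hi ι) ((dvd_iff (iw hi ι) hϖ hι x).not.1 hx)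
    rw [← hy, norm_pow] at h3
    rw [← hy]
    exact sq_mod_eight ((pow_eq_one_iff_of_nonneg (norm_nonneg _) two_ne_zero).1 h3) hfix
  rcases loc_dich hi cd hc1 hD h0 h2 hs hk with h | h
  · have h3 := not_dvd_of_fix (iw hi ι) hϖ hι hδ hsq fun τ _ hτ => fix_D h τ hτ
    exact ⟨h3, Or.inl (key hsq h3 fun τ => fix_D h τ (two_fix (iw hi ι) τ))⟩
  · have hsr : (ι (s * r)) ^ 2 = em (iw hi ι) (δ * m) := by
      rw [← map_pow, mul_pow, hs, cd.hr, ← map_mul, ι_em]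
    have h3 : ¬ ϖ ∣ δ := by
      rintro ⟨t, ht⟩
      have h4 : ¬ ϖ ∣ t := by
        rintro ⟨v, rfl⟩
        exact hϖ.not_isUnit (hδ ϖ ⟨v, by rw [ht]; ring⟩)
      refine no_simple (iw hi ι) hϖ hι (t := t * m) (s := ι (s * r))
        (fun h => (hϖ.dvd_or_dvd h).elim h4 hϖm) ?_ fun τ _ hτ => fix_D h τ hτ
      rw [hsr, ht]
      congr 1
      ring
    exact ⟨h3, Or.inr (key hsr (fun h => (hϖ.dvd_or_dvd h).elim h3 hϖm)
      fun τ => fix_D h τ (two_fix (iw hi ι) τ))⟩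

lemma vdvd {v π : OO} (hv : v = 1 ∨ v = -1) (hπ : Prime π) : ¬ π ∣ v := by
  intro h
  rcases hv with h1 | h1
  · rw [h1] at h
    exact hπ.not_isUnit (isUnit_of_dvd_one h)
  · rw [h1, dvd_neg] at h
    exact hπ.not_isUnit (isUnit_of_dvd_one h)

section

variable {n : ℕ} {q : Fin n → OO} (hq : ∀ i, Pr (q i)) (hinj : Function.Injective q)
  {v : OO} (hv : v = 1 ∨ v = -1) (hm : m = v * (s7 * ∏ i, q i)) (cd : ChiD hi χ m r)
  {ϖ ϖ' : OO} (hϖ : (ϖ = om ∧ ϖ' = 1 - om) ∨ (ϖ = 1 - om ∧ ϖ' = om))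
  {ι : QB →ₐ[ℚ] PadicAlgCl 2} (hι : ‖em (iw hi ι) ϖ‖ < 1)
  (h5 : ‖-(em (iw hi ι) m) - 5‖ ≤ 1 / 8)

include hϖ in
lemma hϖp : Prime ϖ := by
  rcases hϖ with ⟨rfl, -⟩ | ⟨rfl, -⟩
  · exact prime_om
  · exact prime_om'

include hϖ in
lemma hϖ2 : ϖ * ϖ' = 2 := by
  rcases hϖ with ⟨rfl, rfl⟩ | ⟨rfl, rfl⟩
  · exact om_mul
  · rw [mul_comm]; exact om_mul

include hq hinj hv hm cd hϖ hι h5 in
/-- **The residual class of an integral Selmer cocycle.** -/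
theorem exists_RD {c : GK i₀ → ℚ_[2]} (hc : Sl hi χ ϖ c) (hint : ∀ σ, ‖c σ‖ ≤ 1) :
    ∃ δ s, RD hi q m ϖ ϖ' ι c δ s := by
  have hϖp := hϖp hϖ
  have hϖ2 := hϖ2 hϖ
  -- Kummer theory
  obtain ⟨δ, hδ, hkum⟩ := kum hi (md c) (md_cont hc.coc) (md_mul hc.coc hint)
  obtain ⟨s, hs⟩ : ∃ s : QB, s ^ 2 = em hi δ := IsAlgClosed.exists_pow_nat_eq _ (by norm_num)
  have hk : ∀ σ : GK i₀, σ s = s ↔ md c σ = 0 := hkum s hs
  obtain ⟨hst1, hst2⟩ := loc_strict3 hi cd hint hϖp hι h5 (hc.str ι (by rwa [ι_em])) hδ hs hk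
  refine ⟨δ, s, hδ, hs, hk, hst1, hst2, ?_, ?_, ?_⟩
  -- the prime divisors of `δ`
  · intro π hπ hπδ
    by_cases hπ2 : π ∣ 2
    · rw [← hϖ2] at hπ2
      rcases hπ.dvd_or_dvd hπ2 with h | h
      · exfalso
        exact hst1 (((hπ.dvd_prime_iff_associated hϖp).1 h).symm.dvd.trans hπδ)
      · exact Or.inl h
    · by_cases hπm : π ∣ m
      · right
        have h1 : π ∣ s7 * ∏ i, q i := by
          rcases hv with h | h
          · rwa [hm, h, one_mul] at hπm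
          · rwa [hm, h, neg_one_mul, dvd_neg] at hπm
        rcases hπ.dvd_or_dvd h1 with h2 | h2
        · exact Or.inl h2
        · right
          obtain ⟨i, -, h3⟩ := (hπ.dvd_finsetProd_iff _).1 h2
          exact ⟨i, h3⟩
      · exfalso
        obtain ⟨l, hl, κ, hκ⟩ := exists_emb hi hπ
        rw [ι_em] at hκ
        have hl2 : l ≠ 2 := fun h => hπ2 ((two_of_dvd hπ (iw hi κ) hκ).1 h)
        have h1 := unram hi cd hl2 (hc.odd l κ hl2) ((dvd_iff (iw hi κ) hπ hκ m).not.1 hπm)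
        refine not_dvd_of_fix (iw hi κ) hπ hκ hδ (s := κ s) ?_ ?_ hπδ
        · rw [← map_pow, hs, ι_em]
        · intro τ hin hτ
          exact fix_I (fun σ hσ => (hk σ).2 (h1 σ hσ)) τ hin hτ
  -- the prime divisors of `m`
  · intro i
    obtain ⟨m1, hm1, hm1'⟩ : ∃ m1, m = q i * m1 ∧ ¬ q i ∣ m1 := by
      have h1 := Finset.mul_prod_erase Finset.univ q (Finset.mem_univ i)
      have h2 := nd_prod hq hinj (Finset.notMem_erase i Finset.univ)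
      refine ⟨v * (s7 * ∏ k ∈ Finset.univ.erase i, q k), by rw [hm, ← h1]; ring, fun h => ?_⟩
      rcases (hq i).prime.dvd_or_dvd h with h3 | h3
      · exact vdvd hv (hq i).prime h3
      · rcases (hq i).prime.dvd_or_dvd h3 with h4 | h4
        · exact (hq i).not_s7 h4
        · exact h2 h4
    obtain ⟨l, hl, κ, hκ⟩ := exists_emb hi (hq i).prime
    rw [ι_em] at hκ
    have hl2 : l ≠ 2 := fun h => (hq i).two ((two_of_dvd (hq i).prime (iw hi κ) hκ).1 h)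
    exact loc_q hi cd hc.coc hint (hq i) hm1 hm1' hκ (hc.odd l κ hl2) hδ hs hk
  · obtain ⟨l, hl, κ, hκ⟩ := exists_emb hi prime_s7
    rw [ι_em] at hκ
    have hl7 := p_seven (iw hi κ) hκ
    have hl2 : l ≠ 2 := by rw [hl7]; norm_num
    refine loc_7 hi cd hc.coc hint (m1 := v * ∏ i, q i) (by rw [hm]; ring) (fun h => ?_) hκ
      (hc.odd l κ hl2) hδ hs hk
    rcases prime_s7.dvd_or_dvd h with h1 | h1
    · exact vdvd hv prime_s7 h1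
    · obtain ⟨j, -, h2⟩ := (prime_s7.dvd_finsetProd_iff _).1 h1
      exact (hq j).s7_not h2

variable {w4 : ZMod 4} (hw4 : w4 ^ 2 = w4 - 2) (h4a : (ϖ = om ∧ w4 = 2) ∨ (ϖ = 1 - om ∧ w4 = 3))
  (h4b : (ϖ' = 1 - om ∧ w4 = 2) ∨ (ϖ' = om ∧ w4 = 3))

include hι h5 h4a in
lemma m_four : em hw4 m = -1 := by
  have h1 : em hw4 (-m) = 1 := by
    apply em_four_one (iw hi ι) hw4 h4a hι
    rw [map_neg]
    have e : -(em (iw hi ι) m) - 1 = (-(em (iw hi ι) m) - 5) + 4 := by ring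
    rw [e]
    exact add_le (h5.trans (by norm_num)) norm_four'.le
  rw [map_neg] at h1
  linear_combination -h1

include hι h5 h4a in
/-- the residue modulo four -/
lemma RD.four {c : GK i₀ → ℚ_[2]} {δ : OO} {s : QB} (h : RD hi q m ϖ ϖ' ι c δ s) :
    em hw4 δ = 1 ∨ em hw4 δ = -1 := by
  have hm4 := m_four hi hι h5 hw4 h4a
  rcases h.st with h1 | h1
  · exact Or.inl (em_four_one (iw hi ι) hw4 h4a hι (h1.trans (by norm_num)))
  · have h2 := em_four_one (iw hi ι) hw4 h4a hι (h1.trans (by norm_num))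
    rw [map_mul, hm4] at h2
    right
    linear_combination -h2

include hq hinj hv hm hι h5 h4a h4b in
/-- the classes that are `1` modulo four are trivial -/
theorem RD.triv (h8 : (8 : OO) ∣ ∏ i, q i - 1) (hind : Indec7 q) {c : GK i₀ → ℚ_[2]} {δ : OO}
    {s : QB} (h : RD hi q m ϖ ϖ' ι c δ s) (h7 : ¬ s7 ∣ δ) (h4 : em hw4 δ = 1) : ∀ σ, ‖c σ‖ < 1 := by
  have hm4 := m_four hi hι h5 hw4 h4a
  have hv' : -v = 1 ∨ -v = -1 := by
    rcases hv with h1 | h1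
    · right; rw [h1]
    · left; rw [h1, neg_neg]
  have h1 := alg7 hq hinj (m' := -m) (v := -v) hv' (by rw [hm]; ring) h8 hind hw4 h4b
    (by rw [map_neg, hm4, neg_neg]) h4 h.sqf h.sup (fun i => by
      rcases h.loc i with h1 | ⟨δ1, m1, h1, h2, h3⟩
      · exact Or.inl h1
      · right
        refine ⟨δ1, -m1, h1, by rw [h2]; ring, ?_⟩
        obtain ⟨x, hx⟩ := qs_zero.1 (neg_one_symb (hq i))
        obtain ⟨y, hy⟩ := h3
        refine ⟨x * y, ?_⟩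
        have e : δ1 * -m1 - (x * y) ^ 2 = -(δ1 * m1 - y ^ 2) + (-1 - x ^ 2) * y ^ 2 := by ring
        rw [e]
        exact dvd_add ((dvd_neg).2 hy) (Dvd.dvd.mul_right hx _))
    (by
      rcases h.loc7 with h1 | ⟨δ1, m1, h1, -⟩
      · exact Or.inl h1
      · exact absurd ⟨δ1, h1⟩ h7)
  have hδ : δ = 1 := by
    rcases h1 with h1 | h1
    · exact h1
    · exfalso
      apply h7
      rw [h1, hm, dvd_neg]
      exact ⟨v * ∏ i, q i, by ring⟩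
  intro σ
  rw [← md_zero, ← h.hk σ]
  have h2 := h.hs
  rw [hδ, map_one] at h2
  rcases sq_eq_one_iff.1 h2 with h3 | h3
  · rw [h3, map_one]
  · rw [h3, map_neg, map_one]

/-- a product of square roots which is fixed -/
lemma fixed_odd {x : OO} {y : QB} (hy : y ^ 2 = em hi (s7 * x)) (hfix : ∀ σ : GK i₀, σ y = y)
    (hx : ¬ s7 ∣ x) : False := by
  obtain ⟨l, hl, κ, hκ⟩ := exists_emb hi prime_s7
  rw [ι_em] at hκ
  refine no_simple (iw hi κ) prime_s7 hκ (t := x) (s := κ y) hx ?_ fun τ _ hτ =>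
    fix_D (fun σ _ => hfix σ) τ hτ
  rw [← map_pow, hy, ι_em]

/-- the residual characters -/
lemma mul3 {s₁ s₂ s₃ : QB} {x₁ x₂ x₃ : OO} (h₁ : s₁ ^ 2 = em hi x₁) (h₂ : s₂ ^ 2 = em hi x₂)
    (h₃ : s₃ ^ 2 = em hi x₃) (h : ∀ σ : GK i₀, σ s₃ = s₃ ↔ (σ s₁ = s₁ ↔ σ s₂ = s₂)) :
    ∀ σ : GK i₀, σ (s₁ * s₂ * s₃) = s₁ * s₂ * s₃ := by
  intro σ
  rw [map_mul, map_mul]
  have h0 := h σ
  rcases rt_or hi h₁ σ with a1 | a1 <;> rcases rt_or hi h₂ σ with a2 | a2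
  · rw [h0.2 ⟨fun _ => a2, fun _ => a1⟩, a1, a2]
  · by_cases h2 : s₂ = -s₂
    · rw [h2] at a2 ⊢
      rw [neg_neg] at a2
      rw [← h2] at a2
      rw [← h2, h0.2 ⟨fun _ => a2, fun _ => a1⟩, a1, a2]
    · have h3 : ¬ σ s₃ = s₃ := fun h3 => h2 (((h0.1 h3).1 a1).symm.trans a2)
      rw [(rt_or hi h₃ σ).resolve_left h3, a1, a2]
      ring
  · by_cases h2 : s₁ = -s₁
    · rw [h2] at a1 ⊢
      rw [neg_neg] at a1
      rw [← h2] at a1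
      rw [← h2, h0.2 ⟨fun _ => a2, fun _ => a1⟩, a1, a2]
    · have h3 : ¬ σ s₃ = s₃ := fun h3 => h2 (((h0.1 h3).2 a2).symm.trans a1)
      rw [(rt_or hi h₃ σ).resolve_left h3, a1, a2]
      ring
  · by_cases h2 : s₁ = -s₁
    · by_cases h4 : s₂ = -s₂
      · rw [← h2] at a1
        rw [← h4] at a2
        rw [h0.2 ⟨fun _ => a2, fun _ => a1⟩, a1, a2]
      · rw [← h2] at a1
        have h3 : ¬ σ s₃ = s₃ := fun h3 => h4 (((h0.1 h3).1 a1).symm.trans a2)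
        rw [(rt_or hi h₃ σ).resolve_left h3, a1, a2]
        ring
    · by_cases h4 : s₂ = -s₂
      · rw [← h4] at a2
        have h3 : ¬ σ s₃ = s₃ := fun h3 => h2 (((h0.1 h3).2 a2).symm.trans a1)
        rw [(rt_or hi h₃ σ).resolve_left h3, a1, a2]
        ring
      · have h3 : σ s₃ = s₃ := h0.2 ⟨fun h => absurd (h.symm.trans a1) h2,
          fun h => absurd (h.symm.trans a2) h4⟩
        rw [h3, a1, a2]
        ring

/-- sums of integers of `ℚ_2` modulo two -/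
lemma add_iff {x y : ℚ_[2]} (hx : ‖x‖ ≤ 1) (hy : ‖y‖ ≤ 1) : ‖x + y‖ < 1 ↔ (‖x‖ < 1 ↔ ‖y‖ < 1) := by
  by_cases h1 : ‖x‖ < 1 <;> by_cases h2 : ‖y‖ < 1
  · simp only [h1, h2, iff_true]
    exact add_lt' h1 h2
  · simp only [h1, h2, iff_false, not_true_eq_false]
    intro h
    apply h2
    have e : y = (x + y) + -x := by ring
    rw [e]
    exact add_lt' h (by rwa [norm_neg])
  · simp only [h1, h2, iff_true, iff_false]
    intro h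
    apply h1
    have e : x = (x + y) + -y := by ring
    rw [e]
    exact add_lt' h (by rwa [norm_neg])
  · simp only [h1, h2, iff_true]
    have a1 := (md_eq hx).1 h1
    have a2 := (md_eq hy).1 h2
    have h20 : ‖(2 : ℚ_[2])‖ < 1 := by rw [norm_two']; norm_num
    have e : x + y = ((x - 1) + (y - 1)) + 2 := by ring
    rw [e]
    exact add_lt' (add_lt' a1 a2) h20

lemma md_add {c c' : GK i₀ → ℚ_[2]} (h : ∀ σ, ‖c σ‖ ≤ 1) (h' : ∀ σ, ‖c' σ‖ ≤ 1) (σ : GK i₀) :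
    md (fun σ => c σ + c' σ) σ = 0 ↔ (md c σ = 0 ↔ md c' σ = 0) := by
  rw [md_zero, md_zero, md_zero]
  exact add_iff (h σ) (h' σ)

lemma half_le (σ : GK i₀) : ‖(vl χ σ - 1) * (1 / 2)‖ ≤ 1 := by
  rw [norm_mul, norm_div, norm_one, Pool.Agent.R384.norm_two']
  have := vl_sub_one (χ := χ) σ
  linarith

lemma half_md (cd : ChiD hi χ m r) (σ : GK i₀) :
    md (fun σ => (vl χ σ - 1) * (1 / 2)) σ = 0 ↔ σ r = r := by
  rw [md_zero, ← cd.iff hi, norm_mul, norm_div, norm_one, Pool.Agent.R384.norm_two']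
  constructor
  · intro h; linarith
  · intro h; linarith

/-- the type of the residual class -/
def Ty (q : Fin n → OO) (m : OO) (ϖ ϖ' : OO) (ι : QB →ₐ[ℚ] PadicAlgCl 2)
    {w4 : ZMod 4} (hw4 : w4 ^ 2 = w4 - 2) (c : GK i₀ → ℚ_[2]) : Prop :=
  ∃ δ s, RD hi q m ϖ ϖ' ι c δ s ∧ ¬ s7 ∣ δ ∧ em hw4 δ = -1

include hq hinj hv hm cd hϖ hι h5 h4a h4b in
/-- normalization by a coboundary -/
theorem norm_cob (h8 : (8 : OO) ∣ ∏ i, q i - 1) (hind : Indec7 q) {c : GK i₀ → ℚ_[2]}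
    (hc : Sl hi χ ϖ c) (hint : ∀ σ, ‖c σ‖ ≤ 1) : ∃ z : ℚ_[2],
      (∀ σ, ‖c σ + (vl χ σ - 1) * z‖ ≤ 1) ∧ ((∀ σ, ‖c σ + (vl χ σ - 1) * z‖ < 1) ∨
        Ty hi q m ϖ ϖ' ι hw4 (fun σ => c σ + (vl χ σ - 1) * z)) := by
  obtain ⟨δ, s, h⟩ := exists_RD hi hq hinj hv hm cd hϖ hι h5 hc hint
  by_cases h7 : s7 ∣ δ
  · -- add the half of the coboundary
    have hsl : Sl hi χ ϖ (fun σ => c σ + (vl χ σ - 1) * (1 / 2)) := by
      have h1 := hc.lin cd.cont hc 1 0 (1 / 2)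
      have e : (fun σ => 1 * c σ + 0 * c σ + (vl χ σ - 1) * (1 / 2)) =
          fun σ => c σ + (vl χ σ - 1) * (1 / 2) := by
        funext σ
        ring
      rwa [e] at h1
    have hint' : ∀ σ, ‖c σ + (vl χ σ - 1) * (1 / 2)‖ ≤ 1 := fun σ =>
      add_le' (hint σ) (half_le σ)
    obtain ⟨δ', s', h'⟩ := exists_RD hi hq hinj hv hm cd hϖ hι h5 hsl hint'
    have hfix := mul3 hi h.hs cd.hr h'.hs fun σ => by
      rw [h'.hk σ, md_add hint (fun σ => half_le σ) σ, ← h.hk σ, half_md hi cd σ]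
    have h7' : ¬ s7 ∣ δ' := by
      rintro ⟨x', hx'⟩
      obtain ⟨x, hx⟩ := h7
      have n1 : ∀ {δ x : OO}, Squarefree δ → δ = s7 * x → ¬ s7 ∣ x := by
        rintro δ x hδ he ⟨t, ht⟩
        exact prime_s7.not_isUnit (hδ s7 ⟨t, by rw [he, ht]; ring⟩)
      have n2 : ¬ s7 ∣ v * ∏ i, q i := by
        intro h
        rcases prime_s7.dvd_or_dvd h with h1 | h1
        · exact vdvd hv prime_s7 h1
        · obtain ⟨j, -, h2⟩ := (prime_s7.dvd_finsetProd_iff _).1 h1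
          exact (hq j).s7_not h2
      have h70 : em hi s7 ≠ 0 := em_ne hi prime_s7.ne_zero
      refine fixed_odd hi (x := x * (v * ∏ i, q i) * x') (y := s * r * s' / em hi s7) ?_ ?_ ?_
      · rw [div_pow, mul_pow, mul_pow, h.hs, cd.hr, h'.hs, div_eq_iff (pow_ne_zero _ h70),
          ← map_mul, ← map_mul, ← map_pow, ← map_mul]
        congr 1
        rw [hx, hx', hm]
        ring
      · intro σ
        rw [map_div₀, hfix σ, gk_em]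
      · intro h3
        rcases prime_s7.dvd_or_dvd h3 with h3 | h3
        · rcases prime_s7.dvd_or_dvd h3 with h3 | h3
          · exact n1 h.sqf hx h3
          · exact n2 h3
        · exact n1 h'.sqf hx' h3
    refine ⟨1 / 2, hint', ?_⟩
    rcases h'.four hi hι h5 hw4 h4a with h4 | h4
    · left
      exact h'.triv hi hq hinj hv hm hι h5 hw4 h4a h4b h8 hind h7' h4
    · right
      exact ⟨δ', s', h', h7', h4⟩
  · have e : (fun σ => c σ + (vl χ σ - 1) * 0) = c := by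
      funext σ
      ring
    have e' : ∀ σ, c σ + (vl χ σ - 1) * 0 = c σ := fun σ => congrFun e σ
    refine ⟨0, fun σ => by rw [e']; exact hint σ, ?_⟩
    rcases h.four hi hι h5 hw4 h4a with h4 | h4
    · left
      intro σ
      rw [e']
      exact h.triv hi hq hinj hv hm hι h5 hw4 h4a h4b h8 hind h7 h4 σ
    · right
      rw [e]
      exact ⟨δ, s, h, h7, h4⟩

include hq hinj hv hm cd hϖ hι h5 h4a h4b in
/-- the sum of two classes that are not trivial -/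
theorem sum_ty (h8 : (8 : OO) ∣ ∏ i, q i - 1) (hind : Indec7 q) {c c' : GK i₀ → ℚ_[2]}
    (hc : Sl hi χ ϖ c) (hint : ∀ σ, ‖c σ‖ ≤ 1) (hc' : Sl hi χ ϖ c') (hint' : ∀ σ, ‖c' σ‖ ≤ 1)
    (ht : Ty hi q m ϖ ϖ' ι hw4 c) (ht' : Ty hi q m ϖ ϖ' ι hw4 c') : ∀ σ, ‖c σ + c' σ‖ < 1 := by
  obtain ⟨δ₁, s₁, h₁, h71, h41⟩ := ht
  obtain ⟨δ₂, s₂, h₂, h72, h42⟩ := ht'
  have hsl : Sl hi χ ϖ (fun σ => c σ + c' σ) := by
    have h1 := hc.lin cd.cont hc' 1 1 0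
    have e : (fun σ => 1 * c σ + 1 * c' σ + (vl χ σ - 1) * 0) = fun σ => c σ + c' σ := by
      funext σ
      ring
    rwa [e] at h1
  have hint3 : ∀ σ, ‖c σ + c' σ‖ ≤ 1 := fun σ => add_le' (hint σ) (hint' σ)
  obtain ⟨δ₃, s₃, h₃⟩ := exists_RD hi hq hinj hv hm cd hϖ hι h5 hsl hint3
  have hfix := mul3 hi h₁.hs h₂.hs h₃.hs fun σ => by
    rw [h₃.hk σ, md_add hint hint' σ, ← h₁.hk σ, ← h₂.hk σ]
  have hsq : (s₁ * s₂ * s₃) ^ 2 = em hi (δ₁ * δ₂ * δ₃) := by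
    rw [mul_pow, mul_pow, h₁.hs, h₂.hs, h₃.hs, ← map_mul, ← map_mul]
  have h73 : ¬ s7 ∣ δ₃ := by
    rintro ⟨x, hx⟩
    refine fixed_odd hi (x := δ₁ * δ₂ * x) (y := s₁ * s₂ * s₃) ?_ hfix ?_
    · rw [hsq, hx]
      congr 1
      ring
    · intro h3
      rcases prime_s7.dvd_or_dvd h3 with h3 | h3
      · exact (prime_s7.dvd_or_dvd h3).elim h71 h72
      · obtain ⟨t, ht⟩ := h3
        exact prime_s7.not_isUnit (h₃.sqf s7 ⟨t, by rw [hx, ht]; ring⟩)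
  have h43 : em hw4 δ₃ = 1 := by
    have hϖp := hϖp hϖ
    have h1 : (ι (s₁ * s₂ * s₃)) ^ 2 = em (iw hi ι) (δ₁ * δ₂ * δ₃) := by
      rw [← map_pow, hsq, ι_em]
    have h2 : ¬ ϖ ∣ δ₁ * δ₂ * δ₃ := fun h => (hϖp.dvd_or_dvd h).elim
      (fun h => (hϖp.dvd_or_dvd h).elim h₁.nd h₂.nd) h₃.nd
    have h3 := eq_one_of_not_lt (iw hi ι) ((dvd_iff (iw hi ι) hϖp hι _).not.1 h2)
    have h4 : ‖ι (s₁ * s₂ * s₃)‖ = 1 := by
      rw [← h1, norm_pow] at h3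
      exact (pow_eq_one_iff_of_nonneg (norm_nonneg _) two_ne_zero).1 h3
    have h6 := sq_mod_eight h4 fun τ =>
      fix_D (ι := ι) (fun σ _ => hfix σ) τ (two_fix (iw hi ι) τ)
    rw [h1] at h6
    have h7 := em_four_one (iw hi ι) hw4 h4a hι (h6.trans (by norm_num))
    rw [map_mul, map_mul, h41, h42] at h7
    linear_combination h7
  exact h₃.triv hi hq hinj hv hm hι h5 hw4 h4a h4b h8 hind h73 h43

include hq hinj hv hm cd hϖ hι h5 h4a h4b in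
/-- one step of the approximation -/
theorem step_ty (h8 : (8 : OO) ∣ ∏ i, q i - 1) (hind : Indec7 q) {c e : GK i₀ → ℚ_[2]}
    (hc : Sl hi χ ϖ c) (hint : ∀ σ, ‖c σ‖ ≤ 1) (ht : Ty hi q m ϖ ϖ' ι hw4 c)
    (he : Sl hi χ ϖ e) (hinte : ∀ σ, ‖e σ‖ ≤ 1) :
    ∃ z t : ℚ_[2], ‖t‖ ≤ 1 ∧ ∀ σ, ‖e σ + (vl χ σ - 1) * z + t * c σ‖ ≤ 1 / 2 := by
  obtain ⟨z, h1, h2⟩ := norm_cob hi hq hinj hv hm cd hϖ hι h5 hw4 h4a h4b h8 hind he hinte
  rcases h2 with h2 | h2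
  · refine ⟨z, 0, by rw [norm_zero]; norm_num, fun σ => ?_⟩
    rw [zero_mul, add_zero]
    exact norm_lt_one (h2 σ)
  · have hsl : Sl hi χ ϖ (fun σ => e σ + (vl χ σ - 1) * z) := by
      have h1 := he.lin cd.cont he 1 0 z
      have e : (fun σ => 1 * e σ + 0 * e σ + (vl χ σ - 1) * z) =
          fun σ => e σ + (vl χ σ - 1) * z := by
        funext σ
        ring
      rwa [e] at h1
    refine ⟨z, 1, by rw [norm_one], fun σ => ?_⟩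
    rw [one_mul]
    exact norm_lt_one (sum_ty hi hq hinj hv hm cd hϖ hι h5 hw4 h4a h4b h8 hind hsl h1 hc hint h2 ht σ)

include hq hinj hv hm cd hϖ hι h5 h4a h4b in
/-- the approximation -/
theorem approx_ty (h8 : (8 : OO) ∣ ∏ i, q i - 1) (hind : Indec7 q) {c e : GK i₀ → ℚ_[2]}
    (hc : Sl hi χ ϖ c) (hint : ∀ σ, ‖c σ‖ ≤ 1) (ht : Ty hi q m ϖ ϖ' ι hw4 c)
    (he : Sl hi χ ϖ e) (hinte : ∀ σ, ‖e σ‖ ≤ 1) (k : ℕ) :
    ∃ z t : ℚ_[2], ‖t‖ ≤ 1 ∧ ∀ σ, ‖e σ + (vl χ σ - 1) * z + t * c σ‖ ≤ (1 / 2) ^ k := by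
  induction k with
  | zero =>
    refine ⟨0, 0, by rw [norm_zero]; norm_num, fun σ => ?_⟩
    rw [mul_zero, zero_mul, add_zero, add_zero, pow_zero]
    exact hinte σ
  | succ k ih =>
    obtain ⟨z, t, h1, h2⟩ := ih
    have h20 : (2 : ℚ_[2]) ^ k ≠ 0 := pow_ne_zero _ two_ne_zero
    have hn2 : ‖(2 : ℚ_[2]) ^ k‖ = (1 / 2) ^ k := by rw [norm_pow, Pool.Agent.R384.norm_two']
    have hsl := he.lin cd.cont hc ((2 : ℚ_[2]) ^ k)⁻¹ (((2 : ℚ_[2]) ^ k)⁻¹ * t)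
      (((2 : ℚ_[2]) ^ k)⁻¹ * z)
    have hin : ∀ σ, ‖((2 : ℚ_[2]) ^ k)⁻¹ * e σ + ((2 : ℚ_[2]) ^ k)⁻¹ * t * c σ +
        (vl χ σ - 1) * (((2 : ℚ_[2]) ^ k)⁻¹ * z)‖ ≤ 1 := by
      intro σ
      have e1 : ((2 : ℚ_[2]) ^ k)⁻¹ * e σ + ((2 : ℚ_[2]) ^ k)⁻¹ * t * c σ +
          (vl χ σ - 1) * (((2 : ℚ_[2]) ^ k)⁻¹ * z) =
          ((2 : ℚ_[2]) ^ k)⁻¹ * (e σ + (vl χ σ - 1) * z + t * c σ) := by ring
      rw [e1, norm_mul, norm_inv, hn2]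
      have h3 : (0 : ℝ) < (1 / 2) ^ k := by positivity
      rw [inv_mul_le_iff₀ h3, mul_one]
      exact h2 σ
    obtain ⟨z', t', g1, g2⟩ := step_ty hi hq hinj hv hm cd hϖ hι h5 hw4 h4a h4b h8 hind hc hint ht
      hsl hin
    refine ⟨z + 2 ^ k * z', t + 2 ^ k * t', ?_, fun σ => ?_⟩
    · refine add_le' h1 ?_
      rw [norm_mul, hn2]
      have h3 : ((1 / 2 : ℝ)) ^ k ≤ 1 := pow_le_one₀ (by norm_num) (by norm_num)
      calc ((1 / 2 : ℝ)) ^ k * ‖t'‖ ≤ 1 * 1 :=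
            mul_le_mul h3 g1 (norm_nonneg _) (by norm_num)
        _ = 1 := one_mul 1
    · have e1 : e σ + (vl χ σ - 1) * (z + 2 ^ k * z') + (t + 2 ^ k * t') * c σ =
          2 ^ k * (((2 : ℚ_[2]) ^ k)⁻¹ * e σ + ((2 : ℚ_[2]) ^ k)⁻¹ * t * c σ +
          (vl χ σ - 1) * (((2 : ℚ_[2]) ^ k)⁻¹ * z) + (vl χ σ - 1) * z' + t' * c σ) := by
        field_simp
        ring
      rw [e1, norm_mul, hn2, pow_succ]
      exact mul_le_mul_of_nonneg_left (g2 σ) (by positivity)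

include hq hinj hv hm cd hϖ hι h5 h4a h4b in
/-- **A class of the nontrivial type generates.** -/
theorem gen_ty (h8 : (8 : OO) ∣ ∏ i, q i - 1) (hind : Indec7 q) {c e : GK i₀ → ℚ_[2]}
    (hc : Sl hi χ ϖ c) (hint : ∀ σ, ‖c σ‖ ≤ 1) (ht : Ty hi q m ϖ ϖ' ι hw4 c)
    (he : Sl hi χ ϖ e) (hinte : ∀ σ, ‖e σ‖ ≤ 1) :
    ∃ t y : ℚ_[2], ∀ σ, e σ + t * c σ = (vl χ σ - 1) * y := by
  have happ := approx_ty hi hq hinj hv hm cd hϖ hι h5 hw4 h4a h4b h8 hind hc hint ht he hinte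
  choose z t h1 h2 using happ
  obtain ⟨T, -, φ, hφ, hT⟩ := (isCompact_closedBall (0 : ℚ_[2]) 1).tendsto_subseq
    (x := t) (fun k => by rw [mem_closedBall_zero_iff]; exact h1 k)
  obtain ⟨σ₀, -, hσ₀⟩ := exists_dec3 hi cd ι h5
  refine ⟨T, ?_⟩
  apply cob_of_all (χ := χ) (c := fun σ => e σ + T * c σ) (cd.big hi hσ₀) (n₀ := 0)
  intro N hN
  obtain ⟨N, rfl⟩ := Int.eq_ofNat_of_zero_le hN
  have hpos : (0 : ℝ) < (1 / 2) ^ N := by positivity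
  obtain ⟨K, hK⟩ := (Metric.tendsto_atTop.1 hT) _ hpos
  set k := max K N with hk
  have hd := hK k (le_max_left _ _)
  rw [dist_eq_norm] at hd
  have hφk : N ≤ φ k := (le_max_right K N).trans (hφ.id_le k)
  have ez : (2 : ℝ) ^ (-((N : ℕ) : ℤ)) = (1 / 2) ^ N := by
    rw [zpow_neg, zpow_natCast, one_div, inv_pow]
  refine ⟨z (φ k), fun σ => ?_⟩
  show _ ≤ (2 : ℝ) ^ (-((N : ℕ) : ℤ))
  rw [ez]
  have e1 : e σ + T * c σ + (vl χ σ - 1) * z (φ k) =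
      (e σ + (vl χ σ - 1) * z (φ k) + t (φ k) * c σ) - ((t ∘ φ) k - T) * c σ := by
    show _ = (e σ + (vl χ σ - 1) * z (φ k) + t (φ k) * c σ) - (t (φ k) - T) * c σ
    ring
  rw [e1]
  refine sub_le' ((h2 (φ k) σ).trans ?_) ?_
  · exact pow_le_pow_of_le_one (by norm_num) (by norm_num) hφk
  · rw [norm_mul]
    calc ‖(t ∘ φ) k - T‖ * ‖c σ‖ ≤ (1 / 2) ^ N * 1 :=
          mul_le_mul hd.le (hint σ) (norm_nonneg _) hpos.le
      _ = (1 / 2) ^ N := mul_one _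

end

/-- **The dimension is at most one.** -/
theorem main7e {n : ℕ} {q : Fin n → OO} (hq : ∀ i, Pr (q i)) (hinj : Function.Injective q)
    (h8 : (8 : OO) ∣ ∏ i, q i - 1) (hind : Indec7 q) {v : OO} (hv : v = 1 ∨ v = -1)
    (hm : m = v * (s7 * ∏ i, q i)) (cd : ChiD hi χ m r) {ϖ ϖ' : OO}
    (hϖ : (ϖ = om ∧ ϖ' = 1 - om) ∨ (ϖ = 1 - om ∧ ϖ' = om))
    (hm5 : ∀ ι : QB →ₐ[ℚ] PadicAlgCl 2, ‖em (iw hi ι) ϖ‖ < 1 →
      ‖-(em (iw hi ι) m) - 5‖ ≤ 1 / 8)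
    {c e : GK i₀ → ℚ_[2]} (hc : Sl hi χ ϖ c) (he : Sl hi χ ϖ e) :
    ∃ a b y : ℚ_[2], (a ≠ 0 ∨ b ≠ 0) ∧ ∀ σ, a * c σ + b * e σ = (vl χ σ - 1) * y := by
  classical
  by_cases hn : ∃ y : ℚ_[2], ∀ σ, c σ = (vl χ σ - 1) * y
  · obtain ⟨y, hy⟩ := hn
    exact ⟨1, 0, y, Or.inl one_ne_zero, fun σ => by rw [one_mul, zero_mul, add_zero, hy]⟩
  have hϖp := hϖp hϖ
  have hϖ2 := hϖ2 hϖ
  -- the strict place
  obtain ⟨p, hpf, ι, hι⟩ := exists_emb hi hϖp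
  have hp2 : p = 2 := by
    rw [ι_em] at hι
    exact (two_of_dvd hϖp (iw hi ι) hι).2 ⟨_, hϖ2.symm⟩
  subst hp2
  have hι' : ‖em (iw hi ι) ϖ‖ < 1 := by rwa [ι_em] at hι
  have h5 := hm5 ι hι'
  obtain ⟨σ₀, -, hσ₀⟩ := exists_dec3 hi cd ι h5
  obtain ⟨w4, hw4, h4a, h4b⟩ : ∃ w4 : ZMod 4, w4 ^ 2 = w4 - 2 ∧
      ((ϖ = om ∧ w4 = 2) ∨ (ϖ = 1 - om ∧ w4 = 3)) ∧
      ((ϖ' = 1 - om ∧ w4 = 2) ∨ (ϖ' = om ∧ w4 = 3)) := by
    rcases hϖ with ⟨h1, h2⟩ | ⟨h1, h2⟩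
    · exact ⟨2, by decide, Or.inl ⟨h1, rfl⟩, Or.inl ⟨h2, rfl⟩⟩
    · exact ⟨3, by decide, Or.inr ⟨h1, rfl⟩, Or.inr ⟨h2, rfl⟩⟩
  -- normalization
  obtain ⟨a, y, ha, hint, hmin⟩ := normalize hc.coc (cd.big hi hσ₀) hn
  have hc1 : Sl hi χ ϖ (fun σ => a * c σ + (vl χ σ - 1) * y) := by
    have h1 := hc.lin cd.cont hc a 0 y
    have e : (fun σ => a * c σ + 0 * c σ + (vl χ σ - 1) * y) =
        fun σ => a * c σ + (vl χ σ - 1) * y := by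
      funext σ
      ring
    rwa [e] at h1
  obtain ⟨z, hz1, hz2⟩ := norm_cob hi hq hinj hv hm cd hϖ hι' h5 hw4 h4a h4b h8 hind hc1 hint
  have hty : Ty hi q m ϖ ϖ' ι hw4 (fun σ => a * c σ + (vl χ σ - 1) * y + (vl χ σ - 1) * z) := by
    rcases hz2 with h | h
    · exfalso
      obtain ⟨σ, hσ⟩ := hmin (-z)
      apply hσ
      have e1 : a * c σ + (vl χ σ - 1) * y - (vl χ σ - 1) * -z =
          a * c σ + (vl χ σ - 1) * y + (vl χ σ - 1) * z := by ring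
      rw [e1]
      exact h σ
    · exact h
  have hc2 : Sl hi χ ϖ (fun σ => a * c σ + (vl χ σ - 1) * y + (vl χ σ - 1) * z) := by
    have h1 := hc.lin cd.cont hc a 0 (y + z)
    have e : (fun σ => a * c σ + 0 * c σ + (vl χ σ - 1) * (y + z)) =
        fun σ => a * c σ + (vl χ σ - 1) * y + (vl χ σ - 1) * z := by
      funext σ
      ring
    rwa [e] at h1
  -- the other cocycle
  obtain ⟨b, hb, hb'⟩ : ∃ b : ℚ_[2], b ≠ 0 ∧ ∀ σ, ‖b * e σ‖ ≤ 1 := by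
    obtain ⟨C, hC⟩ := (isCompact_range he.coc.cont).isBounded.exists_norm_le
    obtain ⟨k, hk⟩ := pow_unbounded_of_one_lt C (one_lt_two (α := ℝ))
    refine ⟨2 ^ k, pow_ne_zero _ two_ne_zero, fun σ => ?_⟩
    rw [norm_mul, norm_pow, Pool.Agent.R384.norm_two']
    have h1 : ‖e σ‖ ≤ 2 ^ k := (hC _ (Set.mem_range_self σ)).trans hk.le
    calc ((1 / 2 : ℝ)) ^ k * ‖e σ‖ ≤ (1 / 2) ^ k * 2 ^ k :=
          mul_le_mul_of_nonneg_left h1 (by positivity)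
      _ = 1 := by rw [← mul_pow]; norm_num
  have he1 : Sl hi χ ϖ (fun σ => b * e σ) := by
    have h1 := he.lin cd.cont he b 0 0
    have e' : (fun σ => b * e σ + 0 * e σ + (vl χ σ - 1) * 0) = fun σ => b * e σ := by
      funext σ
      ring
    rwa [e'] at h1
  obtain ⟨t, y', h⟩ := gen_ty hi hq hinj hv hm cd hϖ hι' h5 hw4 h4a h4b h8 hind hc2 hz1 hty he1 hb'
  refine ⟨t * a, b, y' - t * (y + z), Or.inr hb, fun σ => ?_⟩
  linear_combination h σ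

section

variable {κ κ' : GK i₀ →* ℤ_[2]ˣ} {D : OO} {I : QB}

/-- **The theorem for the other parity** for the curve `E_D`, `D = -√-7 ∏ q_i`. -/
theorem atmost7 {n : ℕ} {q : Fin n → OO} (hq : ∀ i, Pr (q i)) (hinj : Function.Injective q)
    (h8 : (8 : OO) ∣ ∏ i, q i - 1) (hind : Indec7 q) (hD : D = -(s7 * ∏ i, q i))
    (kd : KD hi κ κ' D r I) (j : ℤ) {ϖ ϖ' : OO}
    (hϖ : (Odd j ∧ ϖ = om ∧ ϖ' = 1 - om) ∨ (Even j ∧ ϖ = 1 - om ∧ ϖ' = om))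
    {c e : GK i₀ → ℚ_[2]} (hc : Sl hi (κ ^ j * κ' ^ (1 - j)) ϖ c)
    (he : Sl hi (κ ^ j * κ' ^ (1 - j)) ϖ e) :
    ∃ a b y : ℚ_[2], (a ≠ 0 ∨ b ≠ 0) ∧
      ∀ σ, a * c σ + b * e σ = (vl (κ ^ j * κ' ^ (1 - j)) σ - 1) * y := by
  obtain ⟨m, s, hm, cd⟩ := chiD7 hi kd j
  rcases hϖ with ⟨hj, h1, h2⟩ | ⟨hj, h1, h2⟩
  · have hm' : m = -D := by
      rcases hm with ⟨h, -⟩ | ⟨-, h⟩
      · exact absurd h (Int.not_even_iff_odd.2 hj)
      · exact h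
    refine main7e hi hq hinj h8 hind (v := 1) (Or.inl rfl) (by rw [hm', hD]; ring) cd
      (Or.inl ⟨h1, h2⟩) (fun ι hι => ?_) hc he
    rw [h1] at hι
    rw [hm', hD, neg_neg, ← map_neg]
    exact (s7_five hi h8).1 hι
  · have hm' : m = D := by
      rcases hm with ⟨-, h⟩ | ⟨h, -⟩
      · exact h
      · exact absurd hj (Int.not_even_iff_odd.2 h)
    refine main7e hi hq hinj h8 hind (v := -1) (Or.inr rfl) (by rw [hm', hD]; ring) cd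
      (Or.inr ⟨h1, h2⟩) (fun ι hι => ?_) hc he
    rw [h1] at hι
    rw [hm', hD, ← map_neg, neg_neg]
    exact (s7_five hi h8).2 hι

end

end Pool.Agent.R384
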