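import Pool.Agent.R384.X.Mq7
import Pool.Agent.R384.Y.Even

/-!
# The dimensions of the Selmer groups over multiquadratic fields
-/

set_option autoImplicit false
set_option linter.unusedSectionVars false

namespace Pool.Agent.R384

open Pool.Agent.Y715.Red Pool.Agent.Y715.Nr Pool.Agent.W237.RK
open Pool.Agent.Y715.Gi (QB KK GK i₀_mem gk_fix)
open Pool.Agent.Y715.Df (Cmp exists_cmp)

variable {i₀ : QB} (hi : i₀ ^ 2 = i₀ - 2)

/-- a coboundary on the intersection of `D` and `H` -/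
def CobH {G : Type} [Group G] (χ : G →* ℤ_[2]ˣ) (D : Set G) (H : Subgroup G) (c : G → ℚ_[2]) : Prop :=
  ∃ y : ℚ_[2], ∀ σ ∈ D, σ ∈ H → c σ = (vl χ σ - 1) * y

section

variable {G : Type} [Group G] {χ : G →* ℤ_[2]ˣ} {D : Set G} {H : Subgroup G} {c c' : G → ℚ_[2]}

lemma CobH.add (h : CobH χ D H c) (h' : CobH χ D H c') : CobH χ D H (c + c') := by
  obtain ⟨y, hy⟩ := h
  obtain ⟨y', hy'⟩ := h'
  refine ⟨y + y', fun σ h1 h2 => ?_⟩
  rw [Pi.add_apply, hy σ h1 h2, hy' σ h1 h2]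
  ring

lemma CobH.zero : CobH χ D H (0 : G → ℚ_[2]) := ⟨0, fun σ _ _ => by simp⟩

lemma CobH.smul (a : ℚ_[2]) (h : CobH χ D H c) : CobH χ D H (a • c) := by
  obtain ⟨y, hy⟩ := h
  refine ⟨a * y, fun σ h1 h2 => ?_⟩
  rw [Pi.smul_apply, hy σ h1 h2, smul_eq_mul]
  ring

end

section

variable {G : Type} [Group G] [TopologicalSpace G] {χ : G →* ℤ_[2]ˣ} {H : Subgroup G}
  {c c' : G → ℚ_[2]}

lemma CocOn.add (h : CocOn χ H c) (h' : CocOn χ H c') : CocOn χ H (c + c') := by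
  refine ⟨h.cont.add h'.cont, fun σ h1 τ h2 => ?_⟩
  rw [Pi.add_apply, Pi.add_apply, Pi.add_apply, h.mul σ h1 τ h2, h'.mul σ h1 τ h2]
  ring

lemma CocOn.zero : CocOn χ H (0 : G → ℚ_[2]) :=
  ⟨continuousOn_const, fun σ _ τ _ => by simp⟩

lemma CocOn.smul (a : ℚ_[2]) (h : CocOn χ H c) : CocOn χ H (a • c) := by
  refine ⟨h.cont.const_smul a, fun σ h1 τ h2 => ?_⟩
  rw [Pi.smul_apply, Pi.smul_apply, Pi.smul_apply, h.mul σ h1 τ h2, smul_eq_mul, smul_eq_mul,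
    smul_eq_mul]
  ring

end

/-- the Selmer cocycles on `H` -/
def SelM (ϖ : OO) (χ : GK i₀ →* ℤ_[2]ˣ) (H : Subgroup (GK i₀)) :
    Submodule ℚ_[2] (GK i₀ → ℚ_[2]) where
  carrier := {c | CocOn χ H c ∧
    (∀ (p : ℕ) [Fact p.Prime] (ι : QB →ₐ[ℚ] PadicAlgCl p), p ≠ 2 → CobH χ (II ι) H c) ∧
    (∀ ι : QB →ₐ[ℚ] PadicAlgCl 2, ‖ι (em hi ϖ)‖ < 1 → CobH χ (DD ι) H c)}
  add_mem' := by
    rintro a b ⟨h1, h2, h3⟩ ⟨g1, g2, g3⟩
    exact ⟨h1.add g1, fun p _ ι hp => (h2 p ι hp).add (g2 p ι hp),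
      fun ι hι => (h3 ι hι).add (g3 ι hι)⟩
  zero_mem' := ⟨CocOn.zero, fun p _ ι _ => CobH.zero, fun ι _ => CobH.zero⟩
  smul_mem' := by
    rintro a b ⟨h1, h2, h3⟩
    exact ⟨h1.smul a, fun p _ ι hp => (h2 p ι hp).smul a, fun ι hι => (h3 ι hι).smul a⟩

/-- the coboundaries on `H` -/
def CobM (χ : GK i₀ →* ℤ_[2]ˣ) (H : Subgroup (GK i₀)) : Submodule ℚ_[2] (GK i₀ → ℚ_[2]) where
  carrier := {c | CobH χ Set.univ H c}
  add_mem' := fun h h' => h.add h'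
  zero_mem' := CobH.zero
  smul_mem' := fun a _ h => h.smul a

/-- the dimension of the Selmer group -/
noncomputable def rk (ϖ : OO) (χ : GK i₀ →* ℤ_[2]ˣ) (H : Subgroup (GK i₀)) : Cardinal :=
  Module.rank ℚ_[2] (SelM hi ϖ χ H ⧸ (CobM χ H).submoduleOf (SelM hi ϖ χ H))

/-- the corestriction as a linear map -/
noncomputable def corL {G : Type} [Group G] (χ : G →* ℤ_[2]ˣ) (ε : G →* ℤˣ) (t : G) :
    (G → ℚ_[2]) →ₗ[ℚ_[2]] (G → ℚ_[2]) where
  toFun := cor χ ε t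
  map_add' := by
    intro a b
    funext g
    show cor χ ε t (a + b) g = cor χ ε t a g + cor χ ε t b g
    by_cases h : ε g = 1
    · simp only [cor, if_pos h, Pi.add_apply]; ring
    · simp only [cor, if_neg h, Pi.add_apply]; ring
  map_smul' := by
    intro a b
    funext g
    show cor χ ε t (a • b) g = a * cor χ ε t b g
    by_cases h : ε g = 1
    · simp only [cor, if_pos h, Pi.smul_apply, smul_eq_mul]; ring
    · simp only [cor, if_neg h, Pi.smul_apply, smul_eq_mul]; ring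

lemma cobH_congr {G : Type} [Group G] [TopologicalSpace G] {χ : G →* ℤ_[2]ˣ} {ε : G →* ℤˣ} {D : Set G} {G' : Subgroup G}
    {c : G → ℚ_[2]} (h : CobH χ D (kr ε G') c) : CobH (χ * sgc ε) D (kr ε G') c := by
  obtain ⟨y, hy⟩ := h
  refine ⟨y, fun σ h1 h2 => ?_⟩
  rw [vl_sgc_pos (mem_kr.1 h2).2]
  exact hy σ h1 h2

lemma cocOn_congr {G : Type} [Group G] [TopologicalSpace G] {χ : G →* ℤ_[2]ˣ} {ε : G →* ℤˣ}
    {G' : Subgroup G} {c : G → ℚ_[2]} (h : CocOn χ (kr ε G') c) : CocOn (χ * sgc ε) (kr ε G') c := by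
  refine ⟨h.cont, fun σ h1 τ h2 => ?_⟩
  rw [vl_sgc_pos (mem_kr.1 h1).2]
  exact h.mul σ h1 τ h2

lemma selM_congr {ϖ : OO} {χ : GK i₀ →* ℤ_[2]ˣ} {ε : GK i₀ →* ℤˣ} {G' : Subgroup (GK i₀)}
    {c : GK i₀ → ℚ_[2]} (h : c ∈ SelM hi ϖ χ (kr ε G')) : c ∈ SelM hi ϖ (χ * sgc ε) (kr ε G') :=
  ⟨cocOn_congr h.1, fun p _ ι hp => cobH_congr (h.2.1 p ι hp), fun ι hι => cobH_congr (h.2.2 ι hι)⟩

/-- the corestriction of a Selmer cocycle -/
lemma cor_sel {ϖ : OO} {χ : GK i₀ →* ℤ_[2]ˣ} {ε : GK i₀ →* ℤˣ} {G' : Subgroup (GK i₀)}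
    (hop : ∀ u : ℤˣ, IsOpen {g | ε g = u}) {t : GK i₀} (ht : t ∈ G') (hε : ε t = -1)
    {c : GK i₀ → ℚ_[2]} (h : c ∈ SelM hi ϖ χ (kr ε G')) : cor χ ε t c ∈ SelM hi ϖ χ G' := by
  obtain ⟨hc, hodd, hstr⟩ := h
  have hem : ∀ {p : ℕ} [Fact p.Prime] (ι : QB →ₐ[ℚ] PadicAlgCl p),
      cι ι t (em hi ϖ) = ι (em hi ϖ) := by
    intro p _ ι
    rw [cι_apply, gk_em]
  refine ⟨⟨cor_cont ht hε hop hc.cont, fun σ hσ τ hτ => cor_mul ht hε hc.mul hσ hτ⟩, ?_, ?_⟩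
  · intro p _ ι hp
    obtain ⟨y, hy⟩ := hodd p ι hp
    obtain ⟨y', hy'⟩ := hodd p (cι ι t) hp
    exact cor_loc (I := IIs ι) ht hε hc.mul (fun σ h3 h4 => hy σ h3 h4) (fun σ h3 h4 => by
      rw [hy' _ (II_conj h3) (conj_kr ht hε h4), vl_conj])
  · intro ι hι
    obtain ⟨y, hy⟩ := hstr ι hι
    obtain ⟨y', hy'⟩ := hstr (cι ι t) (by rwa [hem])
    exact cor_loc (I := DDs ι) ht hε hc.mul (fun σ h3 h4 => hy σ h3 h4) (fun σ h3 h4 => by
      rw [hy' _ (DD_conj h3) (conj_kr ht hε h4), vl_conj])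

lemma rank_two {K V V₁ V₂ : Type} [Field K] [AddCommGroup V] [AddCommGroup V₁] [AddCommGroup V₂]
    [Module K V] [Module K V₁] [Module K V₂] (W : Submodule K V) (g : V →ₗ[K] V₁ × V₂)
    (h : LinearMap.ker g ≤ W) : Module.rank K (V ⧸ W) ≤ Module.rank K V₁ + Module.rank K V₂ := by
  have h1 : Module.rank K (V ⧸ W) ≤ Module.rank K (V ⧸ LinearMap.ker g) := by
    refine LinearMap.rank_le_of_surjective (Submodule.mapQ (LinearMap.ker g) W LinearMap.id h) ?_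
    intro x
    obtain ⟨y, rfl⟩ := Submodule.Quotient.mk_surjective _ x
    exact ⟨Submodule.Quotient.mk y, rfl⟩
  refine h1.trans ?_
  rw [(LinearMap.quotKerEquivRange g).rank_eq, ← rank_prod']
  exact Submodule.rank_le _

/-- **The step.** -/
theorem rk_step {ϖ : OO} {χ : GK i₀ →* ℤ_[2]ˣ} {ε : GK i₀ →* ℤˣ} {G' : Subgroup (GK i₀)}
    (hop : ∀ u : ℤˣ, IsOpen {g | ε g = u}) :
    rk hi ϖ χ (kr ε G') ≤ rk hi ϖ χ G' + rk hi ϖ (χ * sgc ε) G' := by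
  by_cases hG : ∃ t ∈ G', ε t = -1
  · obtain ⟨t, ht, hε⟩ := hG
    set A := SelM hi ϖ χ (kr ε G') with hA
    set f₁ : A →ₗ[ℚ_[2]] (SelM hi ϖ χ G') := (corL χ ε t).restrict fun c hc =>
      cor_sel hi hop ht hε hc with hf₁
    set f₂ : A →ₗ[ℚ_[2]] (SelM hi ϖ (χ * sgc ε) G') := (corL (χ * sgc ε) ε t).restrict fun c hc =>
      cor_sel hi hop ht hε (selM_congr hi hc) with hf₂
    refine rank_two _ ((((CobM χ G').submoduleOf (SelM hi ϖ χ G')).mkQ.comp f₁).prod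
      ((((CobM (χ * sgc ε) G').submoduleOf (SelM hi ϖ (χ * sgc ε) G')).mkQ.comp f₂))) ?_
    intro c hc
    have hc' : ((CobM χ G').submoduleOf (SelM hi ϖ χ G')).mkQ (f₁ c) = 0 ∧
        ((CobM (χ * sgc ε) G').submoduleOf (SelM hi ϖ (χ * sgc ε) G')).mkQ (f₂ c) = 0 :=
      Prod.mk_eq_zero.1 hc
    rw [Submodule.mkQ_apply, Submodule.mkQ_apply,
      Submodule.Quotient.mk_eq_zero, Submodule.Quotient.mk_eq_zero] at hc'
    obtain ⟨⟨y₁, hy₁⟩, ⟨y₂, hy₂⟩⟩ := hc'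
    refine ⟨(y₁ + y₂) / 2, fun σ _ hσ => ?_⟩
    obtain ⟨g1, g2⟩ := mem_kr.1 hσ
    have e1 : cor χ ε t c.1 σ = (vl χ σ - 1) * y₁ := hy₁ σ trivial g1
    have e2 : cor (χ * sgc ε) ε t c.1 σ = (vl (χ * sgc ε) σ - 1) * y₂ := hy₂ σ trivial g1
    unfold cor at e1 e2
    rw [if_pos g2] at e1 e2
    rw [vl_sgc_neg hε, vl_sgc_pos g2] at e2
    have h2 : (2 : ℚ_[2]) ≠ 0 := two_ne_zero
    show c.1 σ = _
    field_simp
    linear_combination e1 + e2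
  · push Not at hG
    have e : kr ε G' = G' := by
      ext σ
      constructor
      · exact fun h => (mem_kr.1 h).1
      · intro h
        refine mem_kr.2 ⟨h, ?_⟩
        rcases Int.units_eq_one_or (ε σ) with h3 | h3
        · exact h3
        · exact absurd h3 (hG σ h)
    rw [e]
    exact self_le_add_right _ _

lemma rank_one {K V : Type} [Field K] [AddCommGroup V] [Module K V] {A B : Submodule K V}
    (h : ∀ c ∈ A, ∀ e ∈ A, ∃ a b : K, (a ≠ 0 ∨ b ≠ 0) ∧ a • c + b • e ∈ B) :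
    Module.rank K (A ⧸ B.submoduleOf A) ≤ 1 := by
  rw [rank_le_one_iff]
  by_cases hall : ∀ c ∈ A, c ∈ B
  · refine ⟨0, fun v => ⟨0, ?_⟩⟩
    obtain ⟨y, rfl⟩ := Submodule.Quotient.mk_surjective _ v
    rw [zero_smul, eq_comm, Submodule.Quotient.mk_eq_zero]
    exact hall y.1 y.2
  · push Not at hall
    obtain ⟨c, hc, hcB⟩ := hall
    refine ⟨Submodule.Quotient.mk ⟨c, hc⟩, fun v => ?_⟩
    obtain ⟨e, rfl⟩ := Submodule.Quotient.mk_surjective _ v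
    obtain ⟨a, b, hab, hmem⟩ := h c hc e.1 e.2
    have hb : b ≠ 0 := by
      rintro rfl
      have ha : a ≠ 0 := by simpa using hab
      rw [zero_smul, add_zero] at hmem
      exact hcB ((B.smul_mem_iff ha).1 hmem)
    refine ⟨-(b⁻¹ * a), ?_⟩
    rw [← Submodule.Quotient.mk_smul, Submodule.Quotient.eq]
    show -(b⁻¹ * a) • c - e.1 ∈ B
    have e1 : -(b⁻¹ * a) • c - e.1 = (-b⁻¹) • (a • c + b • e.1) := by
      rw [smul_add, smul_smul, smul_smul, neg_mul, neg_mul, inv_mul_cancel₀ hb, neg_one_smul,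
        sub_eq_add_neg]
    rw [e1]
    exact B.smul_mem _ hmem

lemma rank_nil {K V : Type} [Field K] [AddCommGroup V] [Module K V] {A B : Submodule K V}
    (h : A ≤ B) : Module.rank K (A ⧸ B.submoduleOf A) = 0 := by
  rw [rank_zero_iff]
  refine ⟨fun x y => ?_⟩
  obtain ⟨x, rfl⟩ := Submodule.Quotient.mk_surjective _ x
  obtain ⟨y, rfl⟩ := Submodule.Quotient.mk_surjective _ y
  rw [Submodule.Quotient.eq]
  exact h (x - y).2

section mq

variable {n : ℕ} {s : Fin n → QB} (hs0 : ∀ i, s i ≠ 0)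
  (hs : ∀ (i) (σ : GK i₀), σ (s i) = s i ∨ σ (s i) = -s i)

open scoped Classical in
include hs0 hs in
theorem rk_all (ϖ : OO) : ∀ (A : Finset (Fin n)) (χ : GK i₀ →* ℤ_[2]ˣ),
    (∀ T ⊆ A, rk hi ϖ (χ * ∏ i ∈ T, sgc (es (hs0 i) (hs i))) ⊤ ≤ 1) →
      rk hi ϖ χ (fixs s A) ≤ ((2 ^ A.card : ℕ) : Cardinal) := by
  intro A
  induction A using Finset.induction_on with
  | empty =>
    intro χ h
    have h1 := h ∅ (Finset.Subset.refl _)
    rw [Finset.prod_empty, mul_one] at h1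
    have e : (fixs s ∅ : Subgroup (GK i₀)) = ⊤ := by
      ext σ
      exact ⟨fun _ => trivial, fun _ i hi' => absurd hi' (Finset.notMem_empty i)⟩
    rw [e]
    simpa using h1
  | insert i A hiA ih =>
    intro χ h
    have e : (fixs s (insert i A) : Subgroup (GK i₀)) = kr (es (hs0 i) (hs i)) (fixs s A) := by
      ext σ
      constructor
      · intro h1
        exact mem_kr.2 ⟨fun j hj => h1 j (Finset.mem_insert_of_mem hj),
          (es_one (hs0 i) (hs i)).2 (h1 i (Finset.mem_insert_self _ _))⟩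
      · intro h1 j hj
        obtain ⟨h2, h3⟩ := mem_kr.1 h1
        rcases Finset.mem_insert.1 hj with rfl | hj
        · exact (es_one (hs0 j) (hs j)).1 h3
        · exact h2 j hj
    rw [e]
    refine (rk_step hi (es_open (hs0 i) (hs i))).trans ?_
    have h1 := ih χ fun T hT => h T (hT.trans (Finset.subset_insert _ _))
    have h2 := ih (χ * sgc (es (hs0 i) (hs i))) fun T hT => by
      have h1 := h (insert i T) (Finset.insert_subset_insert _ hT)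
      rw [Finset.prod_insert (fun h => hiA (hT h)), ← mul_assoc] at h1
      exact h1
    refine (add_le_add h1 h2).trans (le_of_eq ?_)
    rw [Finset.card_insert_of_notMem hiA, pow_succ, mul_two]
    push_cast
    rfl

variable {κ κ' : GK i₀ →* ℤ_[2]ˣ} {D : OO} {r I : QB}

/-- **The dimensions over multiquadratic fields**, the other parity. -/
theorem rk_mq {E : Fin n → OO} (hE : ∀ i, s i ^ 2 = em hi (E i)) (kd : KD hi κ κ' D r I)
    (hD : D ≠ 0) (hE0 : ∀ i, E i ≠ 0)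
    (hgood : ∀ T : Finset (Fin n), ∃ (m : ℕ) (q : Fin m → OO) (z : OO), (∀ i, Pr (q i)) ∧
      Function.Injective q ∧ (8 : OO) ∣ ∏ i, q i - 1 ∧ Indec7 q ∧ z ≠ 0 ∧
      D * ∏ i ∈ T, E i = -(s7 * ∏ i, q i) * z ^ 2) (j : ℤ) {ϖ ϖ' : OO}
    (hϖ : (Odd j ∧ ϖ = om ∧ ϖ' = 1 - om) ∨ (Even j ∧ ϖ = 1 - om ∧ ϖ' = om)) :
    rk hi ϖ (κ ^ j * κ' ^ (1 - j)) (fixs s Finset.univ) ≤ ((2 ^ n : ℕ) : Cardinal) := by
  classical
  have hs0 : ∀ i, s i ≠ 0 := by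
    intro i h
    have h1 := hE i
    rw [h, zero_pow two_ne_zero] at h1
    exact hE0 i (em_inj hi h1.symm)
  have hs : ∀ (i) (σ : GK i₀), σ (s i) = s i ∨ σ (s i) = -s i := fun i σ => rt_or hi (hE i) σ
  have h0 := rk_all hi hs0 hs ϖ Finset.univ (κ ^ j * κ' ^ (1 - j)) fun T _ => ?_
  · rwa [Finset.card_univ, Fintype.card_fin] at h0
  obtain ⟨m, q, z, hq, hinj, h8, hind, hz, hprod⟩ := hgood T
  have kd1 := KD.twists hi hs0 hs hE kd hD hE0 T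
  have hz0 : em hi z ≠ 0 := em_ne hi hz
  have kd2 := KD.resc hi kd1 (D' := -(s7 * ∏ i, q i)) (u := (em hi z)⁻¹) (inv_ne_zero hz0)
    (fun σ => by rw [map_inv₀, gk_em]) (by
      rw [mul_pow, kd1.hr, hprod, map_mul, map_pow]
      field_simp)
  set S := ∏ i ∈ T, sgc (es (hs0 i) (hs i)) with hS
  have e : κ ^ j * κ' ^ (1 - j) * S = (κ * S) ^ j * (κ' * S) ^ (1 - j) := by
    refine MonoidHom.ext fun σ => ?_
    have key : ∀ a b c : ℤ_[2]ˣ, a ^ j * b ^ (1 - j) * c = (a * c) ^ j * (b * c) ^ (1 - j) :=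
      fun a b c => by
        rw [mul_zpow, mul_zpow, mul_mul_mul_comm, ← zpow_add, add_sub_cancel, zpow_one]
    exact key _ _ _
  rw [e]
  refine rank_one fun c hc f hf => ?_
  have hsl : ∀ c ∈ SelM hi ϖ ((κ * S) ^ j * (κ' * S) ^ (1 - j)) ⊤,
      Sl hi ((κ * S) ^ j * (κ' * S) ^ (1 - j)) ϖ c := by
    rintro c ⟨h1, h2, h3⟩
    refine ⟨⟨by
      have := h1.cont
      rwa [Subgroup.coe_top, continuousOn_univ] at this, fun σ τ => h1.mul σ trivial τ trivial⟩,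
      fun p _ ι hp => ?_, fun ι hι => ?_⟩
    · obtain ⟨y, hy⟩ := h2 p ι hp
      exact ⟨y, fun σ hσ => hy σ hσ trivial⟩
    · obtain ⟨y, hy⟩ := h3 ι hι
      exact ⟨y, fun σ hσ => hy σ hσ trivial⟩
  obtain ⟨a, b, y, hab, hy⟩ := atmost7 hi hq hinj h8 hind rfl kd2 j hϖ (hsl c hc) (hsl f hf)
  exact ⟨a, b, hab, y, fun σ _ _ => hy σ⟩

/-- the vanishing -/
theorem rk_van {ϖ : OO} {χ : GK i₀ →* ℤ_[2]ˣ} {H : Subgroup (GK i₀)} (h : VanOn hi ϖ χ H) :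
    rk hi ϖ χ H = 0 := by
  refine rank_nil ?_
  rintro c ⟨h1, h2, h3⟩
  obtain ⟨y, hy⟩ := h c h1 (fun p _ ι hp => h2 p ι hp) (fun ι hι => h3 ι hι)
  exact ⟨y, fun σ _ hσ => hy σ hσ⟩

end mq

end Pool.Agent.R384
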