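import Pool.Agent.Results.MP_787500_nt.AllWeightsMultiquadraticX49
import Pool.Agent.R384.Y.Dim

/-!
# The characters of the Tate module, with their data, and the factorizations
-/

set_option autoImplicit false

namespace Pool.Agent.Kdt384

open Pool.Agent.Results.MP_787500_nt.AllWeightsMultiquadraticX49
open WeierstrassCurve Filter Topology
open scoped Classical

/-- the characters -/
theorem exists_tate {w : QBar} (hw : w ^ 2 = w - 2) {M : ℕ} (hM0 : M ≠ 0) :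
    ∃ κ κ' : Chr w, TateModule (tw M) κ κ' ∧ ∃ r I : QBar,
      Pool.Agent.R384.KD hw κ κ' (tw M) r I := by
  have hD := tw_ne hM0
  have h : Pool.Agent.R384.WD w (Pool.Agent.R384.em hw (tw M)) := ⟨hw, Pool.Agent.R384.em_ne hw hD⟩
  obtain ⟨r, hr⟩ : ∃ r : QBar, r ^ 2 = Pool.Agent.R384.em hw (tw M) :=
    IsAlgClosed.exists_pow_nat_eq _ (by norm_num)
  obtain ⟨I, hI⟩ : ∃ I : QBar, I ^ 2 = -1 := IsAlgClosed.exists_pow_nat_eq _ (by norm_num)
  have fx : ∀ σ : Gal w, Pool.Agent.R384.Fx w (Pool.Agent.R384.em hw (tw M))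
      (Pool.Agent.R384.rh σ) := fun σ =>
    ⟨Pool.Agent.Y715.Gi.gk_fix σ, Pool.Agent.R384.gk_em hw σ (tw M)⟩
  obtain ⟨κ, κ', x, y, kd, hx, hy, ax, ay⟩ := Pool.Agent.R384.exists_kd hw hD h hr hI fx
  have td := Pool.Agent.R384.td h
  set T := tr (curve_eq hw (D := tw M)) with hT
  have hor : ∀ {p : ℕ} [Fact p.Prime] (ι : QBar →ₐ[ℚ] PadicAlgCl p) (s : QBar) (z : OK),
      s ^ 2 = Pool.Agent.R384.em hw z → ∀ σ : Gal w, σ s = s ∨ σ s = -s := fun ι s z hs σ =>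
    Pool.Agent.R384.rt_or hw hs σ
  have hIr : (I * r) ^ 2 = Pool.Agent.R384.em hw (-tw M) := by rw [mul_pow, hI, hr, map_neg]; ring
  refine ⟨κ, κ', ⟨⟨fun n => T.symm (y n), fun n => T.symm (x n), ⟨?_, ?_, ?_, ?_⟩,
    ⟨Units.continuous_val.comp kd.cont, fun σ => ?_⟩,
    ⟨Units.continuous_val.comp kd.cont', fun σ => ?_⟩⟩, ?_, ?_⟩, ⟨r, I, kd⟩⟩
  · show T.symm (y 0) = 0 ∧ T.symm (x 0) = 0
    rw [hx.zero, hy.zero, map_zero]
    exact ⟨rfl, rfl⟩
  · intro n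
    show T.symm (y (n + 1)) + T.symm (y (n + 1)) = T.symm (y n) ∧
      T.symm (x (n + 1)) + T.symm (x (n + 1)) = T.symm (x n)
    rw [← map_add, ← map_add, hx.dbl, hy.dbl]
    exact ⟨rfl, rfl⟩
  · intro n P hP
    have h1 : (2 ^ n : ℤ) • T P = 0 := by rw [← map_zsmul, hP, map_zero]
    obtain ⟨a, b, hab⟩ := Pool.Agent.R384.Tow.basis td hx hy h1
    refine ⟨b, a, ?_⟩
    apply T.injective
    show T P = T (b • T.symm (y n) + a • T.symm (x n))
    rw [map_add, map_zsmul, map_zsmul, T.apply_symm_apply, T.apply_symm_apply, hab, add_comm]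
  · intro n a b hab
    have h1 : T (a • T.symm (y n) + b • T.symm (x n)) = 0 := by
      show T ((fun n => a • T.symm (y n) + b • T.symm (x n)) n) = 0
      rw [show (fun n => a • T.symm (y n) + b • T.symm (x n)) n = 0 from hab, map_zero]
    rw [map_add, map_zsmul, map_zsmul, T.apply_symm_apply, T.apply_symm_apply, add_comm] at h1
    exact (Pool.Agent.R384.Tow.uniq td hx hy h1).symm
  · intro n k hk
    show act σ (T.symm (y n)) = k • T.symm (y n)
    apply T.injective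
    rw [hT, tr_act hw h fx σ, ← hT, T.apply_symm_apply, map_zsmul, T.apply_symm_apply]
    exact ay σ n k hk
  · intro n k hk
    show act σ (T.symm (x n)) = k • T.symm (x n)
    apply T.injective
    rw [hT, tr_act hw h fx σ, ← hT, T.apply_symm_apply, map_zsmul, T.apply_symm_apply]
    exact ax σ n k hk
  · rintro p _ ι hn σ ⟨τ, hτ, hin⟩
    have h1 := kd.inert p ι τ σ hτ hin hn
    unfold zv
    rcases hor ι _ _ hIr σ with h2 | h2
    · rw [h1.1 h2, Units.val_one, one_pow]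
    · rw [h1.2 h2, Units.val_neg, Units.val_one, neg_one_sq]
  · rintro p _ ι hn σ ⟨τ, hτ, hin⟩
    have h1 := kd.inert' p ι τ σ hτ hin hn
    unfold zv
    rcases hor ι _ _ hr σ with h2 | h2
    · rw [h1.1 h2, Units.val_one, one_pow]
    · rw [h1.2 h2, Units.val_neg, Units.val_one, neg_one_sq]

/-- the factorizations -/
theorem good_fac {M n : ℕ} {d : Fin n → ℕ} (hG : Good M d) :
    ∀ T : Finset (Fin n), ∃ (m : ℕ) (q : Fin m → Pool.Agent.R384.OO)
        (z : Pool.Agent.R384.OO), (∀ i, Pool.Agent.R384.Pr (q i)) ∧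
        Function.Injective q ∧ (8 : Pool.Agent.R384.OO) ∣ ∏ i, q i - 1 ∧
        Pool.Agent.R384.Indec7 q ∧ z ≠ 0 ∧
        tw M * ∏ i ∈ T, (((d i : ℤ) : Pool.Agent.R384.OO)) =
          -(Pool.Agent.R384.s7 * ∏ i, q i) * z ^ 2 := by
  intro T
  obtain ⟨D, k, hk0, hA, hR, he⟩ := hG T
  have hA' := (adm_iff D).1 hA
  have hgd := (good_iff hA'.1).1 hR
  rw [Pool.Agent.R428.Q0.gd_iff] at hgd
  obtain ⟨m, q, hpr, hinj, h8, hind, hprod⟩ := Pool.Agent.R384.factor7 hA.1 (fun p hp => by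
    rcases (hA'.1.2 p hp).2 with h | h
    · exact Or.inl ⟨(hA'.1.2 p hp).1, h.1, h.2⟩
    · exact Or.inr ⟨(hA'.1.2 p hp).1, h.1, h.2⟩) hA.2.1 hgd
  refine ⟨m, q, ((k : ℤ) : Pool.Agent.R384.OO), hpr, hinj, h8, hind, ?_, ?_⟩
  · intro h1
    have h2 := congrArg QuadraticAlgebra.re h1
    simp at h2
    exact hk0 h2
  · rw [hprod, tw_eq]
    have h1 : ((M : ℤ) : Pool.Agent.R384.OO) * ∏ i ∈ T, (((d i : ℤ) : Pool.Agent.R384.OO)) =
        ((D : ℤ) : Pool.Agent.R384.OO) * ((k : ℤ) : Pool.Agent.R384.OO) ^ 2 := by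
      have h2 : (M : ℤ) * ∏ i ∈ T, (d i : ℤ) = (D : ℤ) * (k : ℤ) ^ 2 := by exact_mod_cast he
      have h3 := congrArg (fun a : ℤ => (a : Pool.Agent.R384.OO)) h2
      simp only [Int.cast_mul, Int.cast_pow, Int.cast_prod] at h3
      exact h3
    linear_combination (-Pool.Agent.R384.s7) * h1

lemma good_ne {M n : ℕ} {d : Fin n → ℕ} (hG : Good M d) : M ≠ 0 ∧ ∀ i, d i ≠ 0 := by
  constructor
  · obtain ⟨D, k, hk, hD, -, he⟩ := hG ∅
    rw [Finset.prod_empty, mul_one] at he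
    rw [he]
    exact mul_ne_zero hD.1.ne_zero (pow_ne_zero 2 hk)
  · intro i
    obtain ⟨D, k, hk, hD, -, he⟩ := hG {i}
    rw [Finset.prod_singleton] at he
    exact right_ne_zero_of_mul (he ▸ mul_ne_zero hD.1.ne_zero (pow_ne_zero 2 hk))

lemma em_om {w : QBar} (hw : w ^ 2 = w - 2) : Pool.Agent.R384.em hw Pool.Agent.R384.om = w := by
  rw [Pool.Agent.R384.em_apply]
  simp [Pool.Agent.R384.om]

lemma em_om' {w : QBar} (hw : w ^ 2 = w - 2) :
    Pool.Agent.R384.em hw (1 - Pool.Agent.R384.om) = 1 - w := by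
  rw [map_sub, map_one, em_om]

lemma e_sq {w : QBar} (hw : w ^ 2 = w - 2) {n : ℕ} {d : Fin n → ℕ} {s : Fin n → QBar}
    (hs : ∀ i, s i ^ 2 = (d i : QBar)) :
    ∀ i, s i ^ 2 = Pool.Agent.R384.em hw (((d i : ℤ) : Pool.Agent.R384.OO)) := by
  intro i
  rw [hs i, map_intCast]
  push_cast
  rfl

lemma e_ne {n : ℕ} {d : Fin n → ℕ} (hd : ∀ i, d i ≠ 0) :
    ∀ i, (((d i : ℤ) : Pool.Agent.R384.OO)) ≠ 0 := by
  intro i h1
  have h2 := congrArg QuadraticAlgebra.re h1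
  simp at h2
  exact hd i h2

/-- **The ranks, all weights.** -/
theorem rk_all_weights {w : QBar} (hw : w ^ 2 = w - 2) {M n : ℕ} {d : Fin n → ℕ} (hG : Good M d)
    {κ κ' : Chr w} {r I : QBar} (kd : Pool.Agent.R384.KD hw κ κ' (tw M) r I) {s : Fin n → QBar}
    (hs : ∀ i, s i ^ 2 = (d i : QBar)) (k : ℤ) :
    Pool.Agent.R384.rk hw (1 - Pool.Agent.R384.om) (κ ^ k * κ' ^ (1 - k))
      (Pool.Agent.R384.fixs s Finset.univ) ≤ (if Even k then ((2 ^ n : ℕ) : Cardinal) else 0) ∧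
    Pool.Agent.R384.rk hw Pool.Agent.R384.om (κ ^ (1 - k) * κ' ^ (1 - (1 - k)))
      (Pool.Agent.R384.fixs s Finset.univ) ≤ (if Even k then ((2 ^ n : ℕ) : Cardinal) else 0) := by
  obtain ⟨hM0, hd0⟩ := good_ne hG
  have hD := tw_ne hM0
  have hE := e_sq hw hs
  have hE0 := e_ne hd0
  have hgood := good_fac hG
  by_cases hk : Even k
  · have hk' : Odd (1 - k) := by
      rw [← Int.not_even_iff_odd, Int.even_sub]
      simp [hk]
    rw [if_pos hk]
    exact ⟨Pool.Agent.R384.rk_mq hw hE kd hD hE0 hgood k (Or.inr ⟨hk, rfl, rfl⟩),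
      Pool.Agent.R384.rk_mq hw hE kd hD hE0 hgood (1 - k) (Or.inl ⟨hk', rfl, rfl⟩)⟩
  · rw [if_neg hk]
    have hk1 : Odd k := Int.not_even_iff_odd.1 hk
    have hk' : Even (1 - k) := by
      rw [Int.even_sub]
      simp [hk]
    exact ⟨(Pool.Agent.R384.rk_van hw (Pool.Agent.R384.vanish_mq hw hE kd hD hE0 hgood k
        (Or.inr ⟨hk1, rfl, rfl⟩))).le,
      (Pool.Agent.R384.rk_van hw (Pool.Agent.R384.vanish_mq hw hE kd hD hE0 hgood (1 - k)
        (Or.inl ⟨hk', rfl, rfl⟩))).le⟩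

end Pool.Agent.Kdt384
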