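import Pool.Agent.Results.MP_6e2fc3_nt.CMFormsAllWeights
import Pool.Agent.R384.Y.Kdt

/-!
# The first component of a class of the induced representation decides
-/

set_option autoImplicit false

namespace Pool.Agent.Hev384

open Pool.Agent.Results.MP_787500_nt.AllWeightsMultiquadraticX49
open Pool.Agent.Results.MP_6e2fc3_nt.CMFormsAllWeights
open WeierstrassCurve Filter Topology
open scoped Classical

lemma ind_add {w : QBar} (χ : Chr w) (c₀ σ : GQ) (u v : ℚ_[2] × ℚ_[2]) :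
    ind χ c₀ σ (u + v) = ind χ c₀ σ u + ind χ c₀ σ v := by
  unfold ind
  split_ifs
  · ext <;> simp only [Prod.fst_add, Prod.snd_add] <;> ring
  · ext <;> simp only [Prod.fst_add, Prod.snd_add] <;> ring

lemma ind_smul {w : QBar} (χ : Chr w) (c₀ σ : GQ) (a : ℚ_[2]) (v : ℚ_[2] × ℚ_[2]) :
    ind χ c₀ σ (a • v) = a • ind χ c₀ σ v := by
  unfold ind
  split_ifs
  · ext <;> simp only [Prod.smul_fst, Prod.smul_snd, smul_eq_mul] <;> ring
  · ext <;> simp only [Prod.smul_fst, Prod.smul_snd, smul_eq_mul] <;> ring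

lemma ind_zero {w : QBar} (χ : Chr w) (c₀ σ : GQ) : ind χ c₀ σ 0 = 0 := by
  have h := ind_smul χ c₀ σ 0 0
  rwa [zero_smul, zero_smul] at h

lemma triv_add {w : QBar} {n : ℕ} {s : Fin n → QBar} {χ : Chr w} {c₀ : GQ} {S : Set GQ}
    {a b : GQ → ℚ_[2] × ℚ_[2]} (h : TrivialOnF s χ c₀ S a) (h' : TrivialOnF s χ c₀ S b) :
    TrivialOnF s χ c₀ S (a + b) := by
  obtain ⟨y, hy⟩ := h
  obtain ⟨z, hz⟩ := h'
  refine ⟨y + z, fun σ h h' => ?_⟩
  rw [Pi.add_apply, hy σ h h', hz σ h h', ind_add]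
  abel

lemma triv_smul {w : QBar} {n : ℕ} {s : Fin n → QBar} {χ : Chr w} {c₀ : GQ} {S : Set GQ}
    {b : GQ → ℚ_[2] × ℚ_[2]} (a : ℚ_[2]) (h : TrivialOnF s χ c₀ S b) :
    TrivialOnF s χ c₀ S (a • b) := by
  obtain ⟨y, hy⟩ := h
  refine ⟨a • y, fun σ h h' => ?_⟩
  rw [Pi.smul_apply, hy σ h h', ind_smul, smul_sub]

lemma triv_zero {w : QBar} {n : ℕ} {s : Fin n → QBar} {χ : Chr w} {c₀ : GQ} {S : Set GQ} :
    TrivialOnF s χ c₀ S 0 := ⟨0, fun σ _ _ => by rw [ind_zero, sub_zero]; rfl⟩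

section proof

open Pool.Agent.R384 (rs rs_apply rs_cont)
open Pool.Agent.Kdt384

variable {w : QBar} (hw : w ^ 2 = w - 2)

include hw in
/-- complex conjugation -/
lemma exists_real {n : ℕ} {d : Fin n → ℕ} {s : Fin n → QBar} (hs : ∀ i, s i ^ 2 = (d i : QBar)) :
    ∃ τ ∈ GF s, τ w = 1 - w := by
  obtain ⟨φ⟩ : Nonempty (QBar →ₐ[ℚ] ℂ) :=
    ⟨IsAlgClosed.lift (R := ℚ) (S := QBar) (M := ℂ)⟩
  let _ : Algebra QBar ℂ := φ.toRingHom.toAlgebra
  have _ : IsScalarTower ℚ QBar ℂ := IsScalarTower.of_algebraMap_eq fun x => (φ.commutes x).symm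
  set τ : GQ := (Complex.conjAe.restrictScalars ℚ : ℂ ≃ₐ[ℚ] ℂ).restrictNormal QBar with hτ
  have hc : ∀ x : QBar, φ (τ x) = (starRingEnd ℂ) (φ x) := fun x =>
    AlgEquiv.restrictNormal_commutes (Complex.conjAe.restrictScalars ℚ : ℂ ≃ₐ[ℚ] ℂ) QBar x
  refine ⟨τ, mem_GF.2 fun i => ?_, ?_⟩
  · apply φ.injective
    show φ (τ (s i)) = φ (s i)
    rw [hc]
    have h1 : (φ (s i)) ^ 2 = (d i : ℂ) := by rw [← map_pow, hs, map_natCast]
    have h2 : ((Real.sqrt (d i) : ℝ) : ℂ) ^ 2 = (d i : ℂ) := by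
      rw [← Complex.ofReal_pow, Real.sq_sqrt (Nat.cast_nonneg _), Complex.ofReal_natCast]
    rcases sq_eq_sq_iff_eq_or_eq_neg.1 (h1.trans h2.symm) with h3 | h3
    · rw [h3, Complex.conj_ofReal]
    · rw [h3, map_neg, Complex.conj_ofReal]
  · rcases or_w hw τ with h | h
    · exfalso
      have h1 : (starRingEnd ℂ) (φ w) = φ w := by rw [← hc, h]
      obtain ⟨r, hr⟩ := Complex.conj_eq_iff_real.1 h1
      have h2 : (φ w) ^ 2 = φ w - 2 := by rw [← map_pow, hw, map_sub, map_ofNat]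
      rw [hr] at h2
      have h3 : r ^ 2 = r - 2 := by exact_mod_cast h2
      nlinarith [sq_nonneg (2 * r - 1)]
    · exact h

variable {c₀ : GQ} (hc₀ : c₀ w = 1 - w) {n : ℕ} {s : Fin n → QBar}

include hw hc₀ in
/-- descent from `F K` to `F` -/
theorem triv_of_fix {χ : Chr w} {b : GQ → ℚ_[2] × ℚ_[2]} (hb : IsCocycleF s χ c₀ b)
    {y : ℚ_[2] × ℚ_[2]} (hfixy : ∀ σ ∈ GF s, σ w = w → b σ = ind χ c₀ σ y - y) :
    TrivialOnF s χ c₀ Set.univ b := by
  set b' : GQ → ℚ_[2] × ℚ_[2] := fun σ => b σ - (ind χ c₀ σ y - y) with hb'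
  have hlin : ∀ (σ : GQ) (u v : ℚ_[2] × ℚ_[2]), ind χ c₀ σ (u - v) = ind χ c₀ σ u - ind χ c₀ σ v := by
    intro σ u v
    unfold ind
    split_ifs
    · ext <;> simp only [Prod.fst_sub, Prod.snd_sub] <;> ring
    · ext <;> simp only [Prod.fst_sub, Prod.snd_sub] <;> ring
  have hmul : ∀ σ ∈ GF s, ∀ τ ∈ GF s, b' (σ * τ) = b' σ + ind χ c₀ σ (b' τ) := by
    intro σ hσ τ hτ
    simp only [hb']
    rw [hb.mul σ hσ τ hτ, ind_mul hw hc₀, hlin, hlin]
    abel
  have hzero : ∀ σ ∈ GF s, σ w = w → b' σ = 0 := by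
    intro σ hσ hσw
    simp only [hb']
    rw [hfixy σ hσ hσw, sub_self]
  -- the other elements
  by_cases hex : ∃ τ ∈ GF s, ¬ τ w = w
  · obtain ⟨τ, hτ, hτw⟩ := hex
    have hτw' : τ w = 1 - w := (or_w hw τ).resolve_left hτw
    have hall : ∀ σ ∈ GF s, ¬ σ w = w → b' σ = b' τ := by
      intro σ hσ hσw
      have hσw' : σ w = 1 - w := (or_w hw σ).resolve_left hσw
      have h1 : (τ⁻¹ * σ) ∈ GF s := (GF s).mul_mem ((GF s).inv_mem hτ) hσ
      have h2 : (τ⁻¹ * σ) w = w := by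
        rw [AlgEquiv.mul_apply, hσw', map_sub, map_one, inv_w hτw']
        ring
      have h3 := hmul τ hτ _ h1
      rw [mul_inv_cancel_left, hzero _ h1 h2] at h3
      rw [ind_zero, add_zero] at h3
      exact h3
    have hfix : ∀ σ ∈ GF s, σ w = w → ind χ c₀ σ (b' τ) = b' τ := by
      intro σ hσ hσw
      have h1 := hmul σ hσ τ hτ
      rw [hzero σ hσ hσw, zero_add, hall (σ * τ) ((GF s).mul_mem hσ hτ) (by
        rw [AlgEquiv.mul_apply, hτw', map_sub, map_one, hσw]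
        exact (w_ne hw).symm)] at h1
      exact h1.symm
    have hneg : ∀ σ ∈ GF s, ¬ σ w = w → ind χ c₀ σ (b' τ) = -(b' τ) := by
      intro σ hσ hσw
      have hσw' : σ w = 1 - w := (or_w hw σ).resolve_left hσw
      have h1 := hmul σ hσ τ hτ
      have h2 : (σ * τ) w = w := by
        rw [AlgEquiv.mul_apply, hτw', map_sub, map_one, hσw']
        ring
      rw [hzero _ ((GF s).mul_mem hσ hτ) h2, hall σ hσ hσw] at h1
      exact (neg_eq_of_add_eq_zero_right h1.symm).symm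
    have h20 : (2 : ℚ_[2]) ≠ 0 := two_ne_zero
    -- half of the value
    set v : ℚ_[2] × ℚ_[2] := ((b' τ).1 / 2, (b' τ).2 / 2) with hv
    have hvv : b' τ = v + v := by
      rw [hv]
      ext
      · simp only [Prod.fst_add]; ring
      · simp only [Prod.snd_add]; ring
    have hhalf : ∀ u z : ℚ_[2] × ℚ_[2], u + u = z + z → u = z := by
      intro u z h
      have h1 := congrArg Prod.fst h
      have h2 := congrArg Prod.snd h
      simp only [Prod.fst_add, Prod.snd_add] at h1 h2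
      ext
      · have : (2 : ℚ_[2]) * (u.1 - z.1) = 0 := by linear_combination h1
        exact sub_eq_zero.1 ((mul_eq_zero.1 this).resolve_left h20)
      · have : (2 : ℚ_[2]) * (u.2 - z.2) = 0 := by linear_combination h2
        exact sub_eq_zero.1 ((mul_eq_zero.1 this).resolve_left h20)
    refine ⟨y - v, fun σ _ hσ => ?_⟩
    have hbσ : b σ = b' σ + (ind χ c₀ σ y - y) := by simp only [hb']; abel
    by_cases hσw : σ w = w
    · have h1 : ind χ c₀ σ v = v := by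
        apply hhalf
        rw [← ind_add, ← hvv]
        exact hfix σ hσ hσw
      rw [hbσ, hzero σ hσ hσw, hlin, h1]
      abel
    · have h1 : ind χ c₀ σ v = -v := by
        apply hhalf
        rw [← ind_add, ← hvv, hneg σ hσ hσw, hvv]
        abel
      rw [hbσ, hall σ hσ hσw, hvv, hlin, h1]
      abel
  · push Not at hex
    exact ⟨y, fun σ _ hσ => hfixy σ hσ (hex σ hσ)⟩

/-- the first component of the restriction to the absolute Galois group of `F K` -/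
noncomputable def fstL (w : QBar) : (GQ → ℚ_[2] × ℚ_[2]) →ₗ[ℚ_[2]] (Gal w → ℚ_[2]) where
  toFun b σ := (b (rs w σ)).1
  map_add' := fun _ _ => rfl
  map_smul' := fun _ _ => rfl

include hw in
lemma fst_sel {χ : Chr w} {b : GQ → ℚ_[2] × ℚ_[2]}
    (h : IsCocycleF s χ c₀ b ∧ IsSelmerF s χ c₀ b) :
    fstL w b ∈ Pool.Agent.R384.SelM hw (1 - Pool.Agent.R384.om) χ
      (Pool.Agent.R384.fixs s Finset.univ) := by
  obtain ⟨hb, hsel⟩ := h
  rw [← galL_eq]
  refine ⟨⟨?_, ?_⟩, ?_, ?_⟩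
  · refine (continuous_fst.comp_continuousOn hb.cont).comp (rs_cont w).continuousOn ?_
    intro σ hσ
    exact rs_mem hσ
  · intro σ hσ τ hτ
    show (b (rs w (σ * τ))).1 = (b (rs w σ)).1 + qv χ σ * (b (rs w τ)).1
    rw [map_mul, hb.mul _ (rs_mem hσ) _ (rs_mem hτ), Prod.fst_add]
    unfold ind
    rw [if_pos (rs_w σ)]
    show _ + val χ (rs w σ) * _ = _
    unfold val
    rw [up_rs]
  · intro p _ ι hp
    obtain ⟨y, hy⟩ := hsel.odd p ι hp
    refine ⟨y.1, fun σ hσ hσ' => ?_⟩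
    have h1 := hy (rs w σ) (by
      obtain ⟨τ, h1, h2⟩ := hσ
      exact ⟨τ, h1, h2⟩) (rs_mem hσ')
    show (b (rs w σ)).1 = (qv χ σ - 1) * y.1
    rw [h1]
    unfold ind
    rw [if_pos (rs_w σ)]
    show val χ (rs w σ) * y.1 - y.1 = _
    unfold val
    rw [up_rs]
    ring
  · intro ι hι
    rw [em_om'] at hι
    obtain ⟨u, hu⟩ := hsel.two ι hι
    refine ⟨u, fun σ hσ hσ' => ?_⟩
    have h1 := hu (rs w σ) (by
      obtain ⟨τ, h1⟩ := hσ
      exact ⟨τ, h1⟩) (rs_mem hσ')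
    show (b (rs w σ)).1 = (qv χ σ - 1) * u
    rw [h1]
    unfold val
    rw [up_rs]

include hw hc₀ in
/-- the first component decides -/
lemma fst_triv {d : Fin n → ℕ} (hs : ∀ i, s i ^ 2 = (d i : QBar)) {χ : Chr w}
    {b : GQ → ℚ_[2] × ℚ_[2]} (hb : IsCocycleF s χ c₀ b)
    (h1 : fstL w b ∈ Pool.Agent.R384.CobM χ (Pool.Agent.R384.fixs s Finset.univ)) :
    TrivialOnF s χ c₀ Set.univ b := by
  rw [← galL_eq] at h1
  obtain ⟨y₁, hy₁⟩ := h1
  have hy1 : ∀ σ ∈ GF s, σ w = w → (b σ).1 = (val χ σ - 1) * y₁ := by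
    intro σ hσ hσw
    have h1 : up w σ ∈ GalL w s := by
      rw [mem_GalL]
      intro i
      rw [up_apply hσw]
      exact mem_GF.1 hσ i
    have h2 : (b (rs w (up w σ))).1 = (qv χ (up w σ) - 1) * y₁ := hy₁ _ trivial h1
    rwa [rs_up hσw] at h2
  obtain ⟨τ, hτ, hτw⟩ := exists_real hw hs
  have hτw' : ¬ τ w = w := by rw [hτw]; exact (w_ne hw).symm
  set u : ℚ_[2] × ℚ_[2] := (y₁, 0) with hu
  set b' : GQ → ℚ_[2] × ℚ_[2] := fun σ => b σ - (ind χ c₀ σ u - u) with hb'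
  have hlin : ∀ (σ : GQ) (u v : ℚ_[2] × ℚ_[2]), ind χ c₀ σ (u - v) = ind χ c₀ σ u - ind χ c₀ σ v := by
    intro σ u v
    unfold ind
    split_ifs
    · ext <;> simp only [Prod.fst_sub, Prod.snd_sub] <;> ring
    · ext <;> simp only [Prod.fst_sub, Prod.snd_sub] <;> ring
  have hmul : ∀ σ ∈ GF s, ∀ τ ∈ GF s, b' (σ * τ) = b' σ + ind χ c₀ σ (b' τ) := by
    intro σ hσ τ hτ
    simp only [hb']
    rw [hb.mul σ hσ τ hτ, ind_mul hw hc₀, hlin, hlin]
    abel
  have hfst : ∀ σ ∈ GF s, σ w = w → (b' σ).1 = 0 := by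
    intro σ hσ hσw
    simp only [hb']
    rw [Prod.fst_sub, Prod.fst_sub, hy1 σ hσ hσw]
    unfold ind
    rw [if_pos hσw]
    simp only [hu]
    ring
  have hsnd : ∀ σ ∈ GF s, σ w = w → (b' σ).2 = (1 - val χ (c₀ * σ * c₀⁻¹)) * (b' τ).2 := by
    intro σ hσ hσw
    have h1 := hmul σ hσ τ hτ
    have h2 : τ⁻¹ * σ * τ ∈ GF s := (GF s).mul_mem ((GF s).mul_mem ((GF s).inv_mem hτ) hσ) hτ
    have h3 := hmul τ hτ _ h2
    rw [show τ * (τ⁻¹ * σ * τ) = σ * τ by group, h1] at h3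
    have h4 : (τ⁻¹ * σ * τ) w = w := conj_w' hτw hσw
    have h5 := congrArg Prod.snd h3
    rw [Prod.snd_add, Prod.snd_add] at h5
    have h6 : (ind χ c₀ σ (b' τ)).2 = val χ (c₀ * σ * c₀⁻¹) * (b' τ).2 := by
      unfold ind
      rw [if_pos hσw]
    have h7 : (ind χ c₀ τ (b' (τ⁻¹ * σ * τ))).2 = 0 := by
      unfold ind
      rw [if_neg hτw']
      show val χ (c₀ * τ) * (b' (τ⁻¹ * σ * τ)).1 = 0
      rw [hfst _ h2 h4, mul_zero]
    rw [h6, h7] at h5
    linear_combination h5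
  refine triv_of_fix hw hc₀ hb (y := (y₁, -(b' τ).2)) fun σ hσ hσw => ?_
  have h1 := hfst σ hσ hσw
  have h2 := hsnd σ hσ hσw
  have e : ind χ c₀ σ (y₁, -(b' τ).2) = (val χ σ * y₁, val χ (c₀ * σ * c₀⁻¹) * -(b' τ).2) := by
    unfold ind
    rw [if_pos hσw]
  have e2 : ind χ c₀ σ u = (val χ σ * y₁, val χ (c₀ * σ * c₀⁻¹) * 0) := by
    unfold ind
    rw [if_pos hσw]
  rw [e]
  ext
  · rw [Prod.fst_sub]
    show _ = val χ σ * y₁ - y₁
    rw [hy1 σ hσ hσw]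
    ring
  · rw [Prod.snd_sub]
    show (b σ).2 = val χ (c₀ * σ * c₀⁻¹) * -(b' τ).2 - -(b' τ).2
    have h3 : (b' σ).2 = (b σ).2 - ((ind χ c₀ σ u).2 - u.2) := rfl
    rw [e2] at h3
    simp only [hu] at h3
    linear_combination h2 - h3

lemma rank_into {K V V' : Type} [Field K] [AddCommGroup V] [AddCommGroup V'] [Module K V]
    [Module K V'] {A B : Submodule K V} {A' B' : Submodule K V'} (f : V →ₗ[K] V')
    (hf : ∀ a ∈ A, f a ∈ A') (hf' : ∀ a ∈ A, f a ∈ B' → a ∈ B) :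
    Module.rank K (A ⧸ B.submoduleOf A) ≤ Module.rank K (A' ⧸ B'.submoduleOf A') := by
  set g : A →ₗ[K] (A' ⧸ B'.submoduleOf A') := (B'.submoduleOf A').mkQ.comp (f.restrict hf) with hg
  have hk : LinearMap.ker g ≤ B.submoduleOf A := by
    intro a ha
    have h1 : (B'.submoduleOf A').mkQ (f.restrict hf a) = 0 := ha
    rw [Submodule.mkQ_apply, Submodule.Quotient.mk_eq_zero] at h1
    exact hf' a.1 a.2 h1
  have h1 : Module.rank K (A ⧸ B.submoduleOf A) ≤ Module.rank K (A ⧸ LinearMap.ker g) := by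
    refine LinearMap.rank_le_of_surjective (Submodule.mapQ (LinearMap.ker g) _ LinearMap.id hk) ?_
    intro x
    obtain ⟨y, rfl⟩ := Submodule.Quotient.mk_surjective _ x
    exact ⟨Submodule.Quotient.mk y, rfl⟩
  refine h1.trans ?_
  rw [(LinearMap.quotKerEquivRange g).rank_eq]
  exact Submodule.rank_le _

end proof

end Pool.Agent.Hev384
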