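import Pool.Agent.R384.Y.Two
import Pool.Agent.R384.Cyc
import Pool.Agent.R384.X.Mq7

/-!
# The powers of the cyclotomic character over `K(√d)`
-/

set_option autoImplicit false
set_option linter.unusedSectionVars false

namespace Pool.Agent.R384

open WeierstrassCurve Pool.Agent.Y676.IS
open Pool.Agent.Y715.Red Pool.Agent.Y715.Nr Pool.Agent.W237.RK
open Pool.Agent.Y715.Gi (QB KK GK i₀_mem gk_fix)
open Pool.Agent.Y715.Df (Cmp exists_cmp)
open Pool.Agent.Y715.Lc (norm_two_odd)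

open scoped Classical

variable {i₀ : QB} (hi : i₀ ^ 2 = i₀ - 2)

/-! ### The characters -/

lemma cyc_pow_cont (k : ℤ) : Continuous (cyc i₀ ^ k : GK i₀ →* ℤ_[2]ˣ) := by
  have h1 : Continuous fun σ => (cyc i₀ σ) ^ k := (cyc_cont i₀).zpow k
  exact h1

lemma cyc_unr (k : ℤ) : Unr (cyc i₀ ^ k : GK i₀ →* ℤ_[2]ˣ) := by
  intro p _ ι hp σ hσ
  show (cyc i₀ σ) ^ k = 1
  rw [cyc_inert hp hσ, one_zpow]

section

variable {d : OO} {s : QB} (hs0 : s ≠ 0) (hs : ∀ σ : GK i₀, σ s = s ∨ σ s = -s)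

/-- the square root of `-1` is fixed by the inertia groups of the odd primes -/
lemma fixI' {I : QB} (hI : I ^ 2 = -1) {p : ℕ} [Fact p.Prime] (hp : p ≠ 2)
    {ι : QB →ₐ[ℚ] PadicAlgCl p} {τ : Au p} {σ : GK i₀} (h : Cmp ι τ σ) (hin : Inert τ) :
    σ I = I := by
  apply ι.injective
  show ι (σ I) = ι I
  rw [← h]
  have h4 : (ι I) ^ 2 ^ 2 = 1 := by
    have : (ι I) ^ 2 ^ 2 = ι ((I ^ 2) ^ 2) := by rw [map_pow, map_pow]; ring
    rw [this, hI]
    norm_num
  exact root_fix hp hin 2 (ι I) h4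

/-- the character `ω ^ k χ_d` -/
theorem chiC (hd : s ^ 2 = em hi d) (k : ℤ) :
    ∃ (m : OO) (t : QB), (m = d ∨ m = -d) ∧ ChiD hi (cyc i₀ ^ k * sgc (es hs0 hs)) m t := by
  obtain ⟨I, hI⟩ : ∃ I : QB, I ^ 2 = -1 := IsAlgClosed.exists_pow_nat_eq _ (by norm_num)
  have hI0 : I ≠ 0 := by
    rintro rfl
    norm_num at hI
  have hap : ∀ σ, (cyc i₀ ^ k * sgc (es hs0 hs) : GK i₀ →* ℤ_[2]ˣ) σ =
      (cyc i₀ σ) ^ k * sgc (es hs0 hs) σ := fun σ => rfl
  have hcont : Continuous (cyc i₀ ^ k * sgc (es hs0 hs) : GK i₀ →* ℤ_[2]ˣ) := by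
    have h1 : Continuous fun σ => (cyc i₀ σ) ^ k * sgc (es hs0 hs) σ :=
      ((cyc_cont i₀).zpow k).mul (cont_sgc (es_open hs0 hs))
    exact h1
  have hinert : ∀ (p : ℕ) [Fact p.Prime] (ι : QB →ₐ[ℚ] PadicAlgCl p) (τ : Au p) (σ : GK i₀),
      p ≠ 2 → Cmp ι τ σ → Inert τ →
        (σ s = s → (cyc i₀ ^ k * sgc (es hs0 hs) : GK i₀ →* ℤ_[2]ˣ) σ = 1) ∧
        (σ s = -s → (cyc i₀ ^ k * sgc (es hs0 hs) : GK i₀ →* ℤ_[2]ˣ) σ = -1) := by
    intro p _ ι τ σ hp hc hin
    have h1 : cyc i₀ σ = 1 := cyc_inert hp ⟨τ, hc, hin⟩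
    rw [hap, h1, one_zpow, one_mul]
    exact ⟨fun h => sgc_one ((es_one hs0 hs).2 h), fun h => sgc_neg ((es_neg hs0 hs).2 h)⟩
  have hph1 : ∀ σ : GK i₀, σ s = s → ph (sgc (es hs0 hs) σ) = 1 := by
    intro σ h
    rw [sgc_one ((es_one hs0 hs).2 h), map_one]
  have hphn : ∀ σ : GK i₀, σ s = -s → ph (sgc (es hs0 hs) σ) = -1 := by
    intro σ h
    rw [sgc_neg ((es_neg hs0 hs).2 h), ph_neg]
    simp
  rcases Int.even_or_odd k with hk | hk
  · obtain ⟨l, hl⟩ := hk
    have hk' : k = 2 * l := by omega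
    have hph : ∀ σ, ph ((cyc i₀ ^ k * sgc (es hs0 hs) : GK i₀ →* ℤ_[2]ˣ) σ) =
        ph (sgc (es hs0 hs) σ) := by
      intro σ
      rw [hap, map_mul, map_zpow, hk', zpow_even (sq_four _), one_mul]
    refine ⟨d, s, Or.inl rfl, hcont, hd, ?_, ?_, hinert⟩
    · intro σ h
      rw [← ph_one, hph, hph1 σ h]
    · intro σ h
      rw [← ph_neg, hph, hphn σ h]
  · obtain ⟨l, hl⟩ := hk
    have hph : ∀ σ, ph ((cyc i₀ ^ k * sgc (es hs0 hs) : GK i₀ →* ℤ_[2]ˣ) σ) =
        ph (cyc i₀ σ) * ph (sgc (es hs0 hs) σ) := by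
      intro σ
      rw [hap, map_mul, map_zpow, hl, zpow_add, zpow_even (sq_four _), zpow_one, one_mul]
    have hIor : ∀ σ : GK i₀, σ I = I ∨ σ I = -I := by
      intro σ
      have h : (σ I) ^ 2 = I ^ 2 := by rw [← map_pow, hI, map_neg, map_one]
      exact sq_eq_sq_iff_eq_or_eq_neg.1 h
    refine ⟨-d, I * s, Or.inr rfl, hcont, ?_, ?_, ?_, ?_⟩
    · rw [mul_pow, hI, hd, map_neg]
      ring
    · intro σ h
      rw [← ph_one, hph]
      rw [map_mul] at h
      rcases hIor σ with h1 | h1 <;> rcases hs σ with h2 | h2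
      · rw [ph_one.2 ((cyc_four hI σ).1 h1), hph1 σ h2, one_mul]
      · exfalso
        rw [h1, h2] at h
        have h3 : (2 : QB) * (I * s) = 0 := by linear_combination -h
        exact (mul_ne_zero two_ne_zero (mul_ne_zero hI0 hs0)) h3
      · exfalso
        rw [h1, h2] at h
        have h3 : (2 : QB) * (I * s) = 0 := by linear_combination -h
        exact (mul_ne_zero two_ne_zero (mul_ne_zero hI0 hs0)) h3
      · rw [ph_neg.2 ((cyc_four hI σ).2 h1), hphn σ h2, neg_mul_neg, one_mul]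
    · intro σ h
      rw [← ph_neg, hph]
      rw [map_mul] at h
      rcases hIor σ with h1 | h1 <;> rcases hs σ with h2 | h2
      · exfalso
        rw [h1, h2] at h
        have h3 : (2 : QB) * (I * s) = 0 := by linear_combination h
        exact (mul_ne_zero two_ne_zero (mul_ne_zero hI0 hs0)) h3
      · rw [ph_one.2 ((cyc_four hI σ).1 h1), hphn σ h2, one_mul]
      · rw [ph_neg.2 ((cyc_four hI σ).2 h1), hph1 σ h2, mul_one]
      · exfalso
        rw [h1, h2] at h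
        have h3 : (2 : QB) * (I * s) = 0 := by linear_combination h
        exact (mul_ne_zero two_ne_zero (mul_ne_zero hI0 hs0)) h3
    · intro p _ ι τ σ hp hc hin
      have hσI := fixI' hI hp hc hin
      obtain ⟨a1, a2⟩ := hinert p ι τ σ hp hc hin
      constructor
      · intro h
        apply a1
        rw [map_mul, hσI] at h
        exact mul_left_cancel₀ hI0 h
      · intro h
        apply a2
        rw [map_mul, hσI, ← mul_neg] at h
        exact mul_left_cancel₀ hI0 h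

/-- **The vanishing over `K(√d)`.** -/
theorem van_cyc (hd : s ^ 2 = em hi d) {n : ℕ} {q : Fin n → OO} (hq : ∀ i, Pr (q i))
    (hinj : Function.Injective q) (h8 : (8 : OO) ∣ ∏ i, q i - 5) (hind : Indec q)
    (hD : d = ∏ i, q i ∨ d = -∏ i, q i) (k : ℤ) {ϖ ϖ' : OO}
    (hϖ : (ϖ = om ∧ ϖ' = 1 - om) ∨ (ϖ = 1 - om ∧ ϖ' = om)) :
    VanOn hi ϖ (cyc i₀ ^ k) (kr (es hs0 hs) ⊤) := by
  apply VanOn.step hi (es_open hs0 hs)
  · intro c hc hodd hstr
    obtain ⟨y, hy⟩ := vanish_unr hi (cyc_pow_cont k) (cyc_unr k) hϖ (c := c)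
      ⟨continuousOn_univ.1 (by simpa using hc.cont), fun σ τ =>
        hc.mul σ (Subgroup.mem_top σ) τ (Subgroup.mem_top τ)⟩ (fun p _ ι hp => by
        obtain ⟨y, hy⟩ := hodd p ι hp
        exact ⟨y, fun σ hσ => hy σ hσ (Subgroup.mem_top σ)⟩) (fun ι hι => by
        obtain ⟨y, hy⟩ := hstr ι hι
        exact ⟨y, fun σ hσ => hy σ hσ (Subgroup.mem_top σ)⟩)
    exact ⟨y, fun σ _ => hy σ⟩
  · obtain ⟨m, t, hm, cd⟩ := chiC hi hs0 hs hd k
    intro c hc hodd hstr
    obtain ⟨y, hy⟩ := main hi hq hinj h8 hind (m := m) (by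
      rcases hm with rfl | rfl
      · exact hD
      · rcases hD with h | h
        · right; rw [h]
        · left; rw [h, neg_neg]) cd hϖ (c := c)
      ⟨continuousOn_univ.1 (by simpa using hc.cont), fun σ τ =>
        hc.mul σ (Subgroup.mem_top σ) τ (Subgroup.mem_top τ)⟩ (fun p _ ι hp => by
        obtain ⟨y, hy⟩ := hodd p ι hp
        exact ⟨y, fun σ hσ => hy σ hσ (Subgroup.mem_top σ)⟩) (fun ι hι => by
        obtain ⟨y, hy⟩ := hstr ι hι
        exact ⟨y, fun σ hσ => hy σ hσ (Subgroup.mem_top σ)⟩)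
    exact ⟨y, fun σ _ => hy σ⟩

end

/-! ### The local cyclotomic extension is infinite -/

/-- an eighth root of unity -/
lemma exists_mu8 : ∃ z : QB, z ^ 4 = -1 := IsAlgClosed.exists_pow_nat_eq _ (by norm_num)

include hi in
/-- there is an element of the decomposition group which moves `√2` -/
lemma exists_sqrt2 (ι : QB →ₐ[ℚ] PadicAlgCl 2) {z : QB} (hz : z ^ 4 = -1) :
    ∃ σ ∈ (DD ι : Set (GK i₀)), σ (z + z⁻¹) ≠ z + z⁻¹ := by
  by_contra hcon
  push Not at hcon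
  have hz0 : z ≠ 0 := by
    rintro rfl
    norm_num at hz
  have h2 : (z + z⁻¹) ^ 2 = 2 := by
    have e : (z + z⁻¹) ^ 2 * z ^ 2 = 2 * z ^ 2 := by
      have : (z + z⁻¹) * z = z ^ 2 + 1 := by field_simp
      calc (z + z⁻¹) ^ 2 * z ^ 2 = ((z + z⁻¹) * z) ^ 2 := by ring
        _ = 2 * z ^ 2 := by rw [this]; linear_combination hz
    exact mul_right_cancel₀ (pow_ne_zero 2 hz0) e
  have hfix : ∀ τ : Au 2, Inert τ → τ (ι i₀) = ι i₀ → τ (ι (z + z⁻¹)) = ι (z + z⁻¹) :=
    fun τ _ hτ => fix_D hcon τ hτ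
  have h0 : ι (z + z⁻¹) ≠ 0 := by
    intro h
    have h3 : ι ((z + z⁻¹) ^ 2) = 0 := by rw [map_pow, h]; norm_num
    rw [h2, map_ofNat] at h3
    exact two_ne_zero h3
  obtain ⟨m, hm⟩ := norm_odd (iw hi ι) (by norm_num) h0 hfix
  have h3 : ‖ι (z + z⁻¹)‖ ^ 2 = 1 / 2 := by
    rw [← norm_pow, ← map_pow, h2, map_ofNat, Pool.Agent.Y715.Gi.norm_two']
    norm_num
  rw [hm] at h3
  push_cast at h3
  rw [← zpow_natCast, ← zpow_mul, one_div, ← zpow_neg_one] at h3
  have h4 := zpow_right_injective₀ (a := (2 : ℝ)) (by norm_num) (by norm_num) h3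
  push_cast at h4
  omega

/-- the cyclotomic character is not `± 1` at the elements that move `√2` -/
lemma cyc_ne {z : QB} (hz : z ^ 4 = -1) {σ : GK i₀} (h : σ (z + z⁻¹) ≠ z + z⁻¹) :
    cyc i₀ σ ≠ 1 ∧ cyc i₀ σ ≠ -1 := by
  have h8 : z ^ 2 ^ 3 = 1 := by
    have : z ^ 2 ^ 3 = (z ^ 4) ^ 2 := by ring
    rw [this, hz]
    norm_num
  have hz0 : z ≠ 0 := by
    rintro rfl
    norm_num at hz
  have h1 := cyc_spec σ h8
  constructor
  · intro h2
    apply h
    rw [h2, Units.val_one, map_one] at h1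
    have : ((1 : ZMod (2 ^ 3))).val = 1 := by decide
    rw [this, pow_one] at h1
    rw [map_add, map_inv₀, h1]
  · intro h2
    apply h
    rw [h2, Units.val_neg, Units.val_one, map_neg, map_one] at h1
    have : ((-1 : ZMod (2 ^ 3))).val = 7 := by decide
    rw [this] at h1
    have h3 : z ^ 7 = z⁻¹ := eq_inv_of_mul_eq_one_left (by rw [← h8]; ring)
    rw [h3] at h1
    rw [map_add, map_inv₀, h1, inv_inv, add_comm]

/-- a unit of `ℤ_2` which is not `± 1` has infinite order -/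
lemma inf_order {u : ℤ_[2]ˣ} (h1 : u ≠ 1) (h2 : u ≠ -1) {k : ℤ} (hk : k ≠ 0) :
    u ^ (2 * k) ≠ 1 := by
  -- if `v ^ n = 1` with `v = 1` modulo four then `v = 1`
  have key : ∀ v : ℤ_[2], (4 : ℤ_[2]) ∣ v - 1 → ∀ n : ℕ, 0 < n → v ^ n = 1 → v = 1 := by
    intro v hv n
    induction n using Nat.strong_induction_on generalizing v with
    | _ n ih =>
    intro hn hvn
    rcases Nat.even_or_odd n with ⟨l, hl⟩ | ho
    · have h3 : (v ^ l) ^ 2 = 1 := by rw [← pow_mul, mul_two, ← hl, hvn]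
      have hd : (4 : ℤ_[2]) ∣ v ^ l - 1 := hv.trans (by simpa using sub_dvd_pow_sub_pow v 1 l)
      rcases sq_eq_one_iff.1 h3 with h4 | h4
      · exact ih l (by omega) v hv (by omega) h4
      · exfalso
        rw [h4] at hd
        have h5 : (4 : ℤ_[2]) ∣ -2 := by
          have : (-1 - 1 : ℤ_[2]) = -2 := by norm_num
          rwa [this] at hd
        obtain ⟨t, ht⟩ := h5
        have h6 : (2 : ℤ_[2]) * (2 * t + 1) = 0 := by linear_combination -ht
        rcases mul_eq_zero.1 h6 with h7 | h7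
        · exact two_ne_zero h7
        · have h8 : ‖(2 * t : ℤ_[2])‖ < 1 := by
            rw [norm_mul]
            have h9 : ‖(2 : ℤ_[2])‖ = 1 / 2 := by
              have := PadicInt.norm_p (p := 2)
              simpa using this
            rw [h9]
            have := PadicInt.norm_le_one t
            linarith
          have h9 : (2 * t : ℤ_[2]) = -1 := by linear_combination h7
          rw [h9, norm_neg, norm_one] at h8
          exact lt_irrefl _ h8
    · -- odd exponent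
      have h3 : (v - 1) * ∑ i ∈ Finset.range n, v ^ i = 0 := by
        rw [mul_comm, geom_sum_mul, hvn, sub_self]
      rcases mul_eq_zero.1 h3 with h4 | h4
      · exact sub_eq_zero.1 h4
      · exfalso
        have h5 : (2 : ℤ_[2]) ∣ (∑ i ∈ Finset.range n, v ^ i) - n := by
          have e : (∑ i ∈ Finset.range n, v ^ i) - (n : ℤ_[2]) =
              ∑ i ∈ Finset.range n, (v ^ i - 1) := by
            rw [Finset.sum_sub_distrib]
            simp
          rw [e]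
          apply Finset.dvd_sum
          intro i _
          have h6 : (2 : ℤ_[2]) ∣ 4 := ⟨2, by norm_num⟩
          exact (h6.trans hv).trans (by simpa using sub_dvd_pow_sub_pow v 1 i)
        rw [h4, zero_sub, dvd_neg] at h5
        obtain ⟨l, hl⟩ := ho
        have h6 : (2 : ℤ_[2]) ∣ 1 := by
          have e : (1 : ℤ_[2]) = (n : ℤ_[2]) - 2 * l := by rw [hl]; push_cast; ring
          rw [e]
          exact dvd_sub h5 (dvd_mul_right _ _)
        obtain ⟨t, ht⟩ := h6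
        have h8 : ‖(2 * t : ℤ_[2])‖ < 1 := by
          rw [norm_mul]
          have h9 : ‖(2 : ℤ_[2])‖ = 1 / 2 := by
            have := PadicInt.norm_p (p := 2)
            simpa using this
          rw [h9]
          have := PadicInt.norm_le_one t
          linarith
        rw [← ht, norm_one] at h8
        exact lt_irrefl _ h8
  -- the square is one modulo four
  have hsq : (4 : ℤ_[2]) ∣ ((u ^ 2 : ℤ_[2]ˣ) : ℤ_[2]) - 1 := by
    rw [← ph_one, map_pow, sq_four]
  intro h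
  have h3 : (u ^ 2) ^ k = 1 := by rw [← zpow_natCast, ← zpow_mul]; exact_mod_cast h
  have h4 : (u ^ 2) ^ k.natAbs = 1 := by
    rcases Int.natAbs_eq k with h5 | h5
    · rw [← zpow_natCast, ← h5, h3]
    · rw [← zpow_natCast, show ((k.natAbs : ℕ) : ℤ) = -k by omega, zpow_neg, h3, inv_one]
  have h5 : ((u ^ 2 : ℤ_[2]ˣ) : ℤ_[2]) = 1 := by
    apply key _ hsq k.natAbs (Int.natAbs_pos.2 hk)
    rw [← Units.val_pow_eq_pow_val, h4, Units.val_one]
  have h6 : (u : ℤ_[2]) ^ 2 = 1 := by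
    rw [← Units.val_pow_eq_pow_val, h5]
  rcases sq_eq_one_iff.1 h6 with h7 | h7
  · exact h1 (Units.ext h7)
  · exact h2 (Units.ext h7)

include hi in
/-- the powers of the cyclotomic character are not trivial on the decomposition groups of `K(s)` -/
theorem exists_cyc_ne {s : QB} (hs : ∀ σ : GK i₀, σ s = s ∨ σ s = -s)
    (ι : QB →ₐ[ℚ] PadicAlgCl 2) {k : ℤ} (hk : k ≠ 0) :
    ∃ σ ∈ (DD ι : Set (GK i₀)), σ s = s ∧ (cyc i₀ σ) ^ k ≠ 1 := by
  obtain ⟨z, hz⟩ := exists_mu8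
  obtain ⟨σ, h1, h2⟩ := exists_sqrt2 hi ι hz
  obtain ⟨h3, h4⟩ := cyc_ne hz h2
  refine ⟨σ * σ, (DDs ι).mul_mem h1 h1, ?_, ?_⟩
  · rw [AlgEquiv.mul_apply]
    rcases hs σ with h | h
    · rw [h, h]
    · rw [h, map_neg, h, neg_neg]
  · rw [map_mul]
    have e : (cyc i₀ σ * cyc i₀ σ) ^ k = (cyc i₀ σ) ^ (2 * k) := by
      rw [zpow_mul, zpow_ofNat, pow_two]
    rw [e]
    exact inf_order h3 h4 hk

end Pool.Agent.R384
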