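import Pool.Agent.R384.X.Mq7

/-!
# Restriction of scalars is continuous
-/

set_option autoImplicit false

namespace Pool.Agent.R384

open Topology Pool.Agent.Y715.Gi

/-- the restriction of scalars -/
noncomputable def rs (w : QB) : GK w →* (QB ≃ₐ[ℚ] QB) := AlgEquiv.restrictScalarsHom ℚ

lemma rs_apply (w : QB) (σ : GK w) (x : QB) : rs w σ x = σ x := rfl

theorem rs_cont (w : QB) : Continuous (rs w) := by
  refine continuous_of_continuousAt_one (rs w) ?_
  rw [ContinuousAt, map_one]
  intro U hU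
  obtain ⟨E, hE, hEU⟩ := (krullTopology_mem_nhds_one_iff ℚ QB U).1 hU
  rw [Filter.mem_map]
  have b := Module.finBasis ℚ E
  have ho : IsOpen {σ : GK w | ∀ i, σ (b i : QB) = (b i : QB)} := by
    have e : {σ : GK w | ∀ i, σ (b i : QB) = (b i : QB)} =
        ⋂ i, {σ : GK w | σ (b i : QB) = (b i : QB)} := by
      ext σ
      simp
    rw [e]
    exact isOpen_iInter_of_finite fun i =>
      (Pool.Agent.W309.TD.locConst_apply (K := KK w) (Ω := QB) (b i : QB)).isOpen_fiber _
  refine Filter.mem_of_superset (ho.mem_nhds (fun i => rfl)) ?_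
  intro σ hσ
  apply hEU
  rw [SetLike.mem_coe, IntermediateField.mem_fixingSubgroup_iff]
  intro x hx
  obtain ⟨f, hf⟩ : ∃ f : Fin (Module.finrank ℚ E) → ℚ, ∑ i, ((f i : ℚ) : QB) * (b i : QB) = x := by
    have h1 := b.sum_repr ⟨x, hx⟩
    have h3 := congrArg (Subtype.val : E → QB) h1
    refine ⟨fun i => b.repr ⟨x, hx⟩ i, h3.symm.trans ?_ |>.symm⟩
    simp [Rat.smul_def]
  show (rs w σ) x = x
  rw [rs_apply, ← hf, map_sum]
  refine Finset.sum_congr rfl fun i _ => ?_
  rw [map_mul, map_ratCast]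
  congr 1
  exact hσ i

end Pool.Agent.R384
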