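import Pool.Agent.R384.End

/-!
# The characters `κ ^ a κ' ^ b`
-/

set_option autoImplicit false
set_option linter.unusedSectionVars false

namespace Pool.Agent.R384

open WeierstrassCurve Pool.Agent.Y676.IS
open Pool.Agent.Y715.Red Pool.Agent.Y715.Nr Pool.Agent.W237.RK
open Pool.Agent.Y715.Gi (QB KK GK i₀_mem gk_fix)
open Pool.Agent.Y715.Df (Cmp exists_cmp)
open Pool.Agent.Y715.Lc (norm_two_odd)

open scoped Classical

variable {i₀ : QB} (hi : i₀ ^ 2 = i₀ - 2)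

/-- the other root is `3` modulo `8` -/
lemma norm_three {w : PadicAlgCl 2} (hw : w ^ 2 = w - 2) (h1 : ‖w‖ = 1) : ‖w - 3‖ ≤ 1 / 8 := by
  have h2 : ‖w + 2‖ = 1 := by
    rw [eq_of_lt, h1]
    rw [h1, Pool.Agent.Y715.Gi.norm_two']
    norm_num
  have e : (w - 3) * (w + 2) = -(2 ^ 3) := by linear_combination hw
  have h3 := congrArg norm e
  rw [norm_mul, h2, mul_one, norm_neg, norm_pow, Pool.Agent.Y715.Gi.norm_two'] at h3
  rw [h3]
  norm_num

/-- the integral representative of a non zero continuous function -/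
lemma exists_scale {G : Type} [TopologicalSpace G] [CompactSpace G] {c : G → ℚ_[2]}
    (hc : Continuous c) {σ₁ : G} (h1 : c σ₁ ≠ 0) :
    ∃ a : ℚ_[2], a ≠ 0 ∧ (∀ σ, ‖a * c σ‖ ≤ 1) ∧ ∃ σ₀, a * c σ₀ = 1 := by
  have : Nonempty G := ⟨σ₁⟩
  obtain ⟨σ₀, -, h0⟩ := isCompact_univ.exists_isMaxOn (Set.univ_nonempty (α := G))
    (hc.norm.continuousOn (s := Set.univ))
  have hmax : ∀ σ, ‖c σ‖ ≤ ‖c σ₀‖ := fun σ => h0 (Set.mem_univ σ)
  have h2 : c σ₀ ≠ 0 := by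
    intro h
    have h3 := hmax σ₁
    rw [h, norm_zero] at h3
    exact h1 (norm_le_zero_iff.1 h3)
  have h3 : 0 < ‖c σ₀‖ := norm_pos_iff.2 h2
  refine ⟨(c σ₀)⁻¹, inv_ne_zero h2, fun σ => ?_, σ₀, inv_mul_cancel₀ h2⟩
  rw [norm_mul, norm_inv, inv_mul_le_iff₀ h3, mul_one]
  exact hmax σ

/-- the character is trivial on the inertia groups of the odd places -/
def Unr (χ : GK i₀ →* ℤ_[2]ˣ) : Prop :=
  ∀ (p : ℕ) [Fact p.Prime] (ι : QB →ₐ[ℚ] PadicAlgCl p), p ≠ 2 → ∀ σ ∈ II ι, χ σ = 1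

/-- **The vanishing for the characters unramified outside two.** -/
theorem vanish_unr {χ : GK i₀ →* ℤ_[2]ˣ} (hχ : Continuous χ) (hu : Unr χ) {ϖ ϖ' : OO}
    (hϖ : (ϖ = om ∧ ϖ' = 1 - om) ∨ (ϖ = 1 - om ∧ ϖ' = om))
    {c : GK i₀ → ℚ_[2]} (hc : Coc χ c)
    (hodd : ∀ (p : ℕ) [Fact p.Prime] (ι : QB →ₐ[ℚ] PadicAlgCl p), p ≠ 2 → CobOn χ (II ι) c)
    (hstr : ∀ ι : QB →ₐ[ℚ] PadicAlgCl 2, ‖ι (em hi ϖ)‖ < 1 → CobOn χ (DD ι) c) :
    ∃ y : ℚ_[2], ∀ σ, c σ = (vl χ σ - 1) * y := by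
  classical
  have hϖp : Prime ϖ := by
    rcases hϖ with ⟨rfl, -⟩ | ⟨rfl, -⟩
    · exact prime_om
    · exact prime_om'
  have hϖ'p : Prime ϖ' := by
    rcases hϖ with ⟨-, rfl⟩ | ⟨-, rfl⟩
    · exact prime_om'
    · exact prime_om
  have hϖ2 : ϖ * ϖ' = 2 := by
    rcases hϖ with ⟨rfl, rfl⟩ | ⟨rfl, rfl⟩
    · exact om_mul
    · rw [mul_comm]; exact om_mul
  -- the strict place
  obtain ⟨p, hpf, ι, hι⟩ := exists_emb hi hϖp
  have hp2 : p = 2 := by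
    rw [ι_em] at hι
    exact (two_of_dvd hϖp (iw hi ι) hι).2 ⟨_, hϖ2.symm⟩
  subst hp2
  have hι' : ‖em (iw hi ι) ϖ‖ < 1 := by rwa [ι_em] at hι
  obtain ⟨y, hy⟩ := hstr ι hι
  refine ⟨y, ?_⟩
  by_contra hcon
  push Not at hcon
  obtain ⟨σ₁, hσ₁⟩ := hcon
  -- the cocycle which vanishes on the decomposition group
  have hc1 : Coc χ (fun σ => 1 * c σ + (vl χ σ - 1) * (-y)) := hc.twist hχ 1 (-y)
  set c₁ : GK i₀ → ℚ_[2] := fun σ => 1 * c σ + (vl χ σ - 1) * (-y) with hc₁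
  obtain ⟨a, ha, hint0, σ₀, hσ₀⟩ := exists_scale hc1.cont (σ₁ := σ₁) (by
    intro h
    apply hσ₁
    rw [hc₁] at h
    linear_combination h)
  have hcc : Coc χ (fun σ => a * c₁ σ + (vl χ σ - 1) * 0) := hc1.twist hχ a 0
  set c' : GK i₀ → ℚ_[2] := fun σ => a * c₁ σ + (vl χ σ - 1) * 0 with hc'
  have hint : ∀ σ, ‖c' σ‖ ≤ 1 := by
    intro σ
    rw [hc']
    simp only [mul_zero, add_zero]
    exact hint0 σ
  have hone : c' σ₀ = 1 := by
    rw [hc']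
    simp only [mul_zero, add_zero]
    exact hσ₀
  have hodd' : ∀ (p : ℕ) [Fact p.Prime] (ι : QB →ₐ[ℚ] PadicAlgCl p), p ≠ 2 →
      ∀ σ ∈ (II ι : Set (GK i₀)), c' σ = 0 := by
    intro p _ κ hp σ hσ
    obtain ⟨z, hz⟩ := ((hodd p κ hp).twist 1 (-y)).twist a 0
    have h1 := hz σ hσ
    have h2 : vl χ σ = 1 := by
      unfold vl
      rw [hu p κ hp σ hσ]
      simp
    rw [h2, sub_self, zero_mul] at h1
    exact h1
  have hstr' : ∀ σ ∈ (DD ι : Set (GK i₀)), c' σ = 0 := by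
    intro σ hσ
    rw [hc', hc₁]
    simp only [hy σ hσ]
    ring
  -- Kummer theory
  obtain ⟨δ, hδ, hkum⟩ := kum hi (md c') (md_cont hcc) (md_mul hcc hint)
  obtain ⟨s, hs⟩ : ∃ s : QB, s ^ 2 = em hi δ := IsAlgClosed.exists_pow_nat_eq _ (by norm_num)
  have hk : ∀ σ : GK i₀, σ s = s ↔ md c' σ = 0 := hkum s hs
  have hmd : ∀ σ, c' σ = 0 → md c' σ = 0 := fun σ h => md_zero.2 (by rw [h, norm_zero]; norm_num)
  have hsq : (ι s) ^ 2 = em (iw hi ι) δ := by rw [← map_pow, hs, ι_em]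
  have hfix : ∀ σ ∈ (DD ι : Set (GK i₀)), σ s = s := fun σ hσ => (hk σ).2 (hmd σ (hstr' σ hσ))
  have hst1 : ¬ ϖ ∣ δ :=
    not_dvd_of_fix (iw hi ι) hϖp hι' hδ hsq fun τ _ hτ => fix_D hfix τ hτ
  have hst2 : ‖em (iw hi ι) δ - 1‖ ≤ 1 / 8 := by
    have h3 := eq_one_of_not_lt (iw hi ι) ((dvd_iff (iw hi ι) hϖp hι' δ).not.1 hst1)
    rw [← hsq, norm_pow] at h3
    rw [← hsq]
    exact sq_mod_eight ((pow_eq_one_iff_of_nonneg (norm_nonneg _) two_ne_zero).1 h3)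
      fun τ => fix_D hfix τ (two_fix (iw hi ι) τ)
  -- the prime divisors of `δ`
  have hsup : ∀ π, Prime π → π ∣ δ → π ∣ ϖ' := by
    intro π hπ hπδ
    by_cases hπ2 : π ∣ 2
    · rw [← hϖ2] at hπ2
      rcases hπ.dvd_or_dvd hπ2 with h | h
      · exfalso
        exact hst1 (((hπ.dvd_prime_iff_associated hϖp).1 h).symm.dvd.trans hπδ)
      · exact h
    · exfalso
      obtain ⟨l, hl, κ, hκ⟩ := exists_emb hi hπ
      rw [ι_em] at hκ
      have hl2 : l ≠ 2 := fun h => hπ2 ((two_of_dvd hπ (iw hi κ) hκ).1 h)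
      refine not_dvd_of_fix (iw hi κ) hπ hκ hδ (s := κ s) ?_ ?_ hπδ
      · rw [← map_pow, hs, ι_em]
      · intro τ hin hτ
        exact fix_I (fun σ hσ => (hk σ).2 (hmd σ (hodd' l κ hl2 σ hσ))) τ hin hτ
  have hδ0 : δ ≠ 0 := hδ.ne_zero
  have hδ4 : δ = 1 ∨ δ = -1 ∨ δ = ϖ' ∨ δ = -ϖ' := by
    by_cases hd : ϖ' ∣ δ
    · obtain ⟨t, ht⟩ := hd
      have htu : IsUnit t := by
        by_contra hcon
        have ht0 : t ≠ 0 := by
          rintro rfl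
          exact hδ0 (by rw [ht, mul_zero])
        obtain ⟨π, hπ, hπt⟩ := WfDvdMonoid.exists_irreducible_factor hcon ht0
        have hπp : Prime π := irreducible_iff_prime.1 hπ
        have h1 := hsup π hπp (by rw [ht]; exact hπt.mul_left _)
        have h2 : ϖ' ∣ t := ((hπp.dvd_prime_iff_associated hϖ'p).1 h1).symm.dvd.trans hπt
        obtain ⟨v, rfl⟩ := h2
        exact hϖ'p.not_isUnit (hδ ϖ' ⟨v, by rw [ht]; ring⟩)
      rcases unit_cases htu with h | h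
      · right; right; left
        rw [ht, h, mul_one]
      · right; right; right
        rw [ht, h]
        ring
    · have hu' : IsUnit δ := by
        by_contra hcon
        obtain ⟨π, hπ, hπt⟩ := WfDvdMonoid.exists_irreducible_factor hcon hδ0
        have hπp : Prime π := irreducible_iff_prime.1 hπ
        have h1 := hsup π hπp hπt
        exact hd (((hπp.dvd_prime_iff_associated hϖ'p).1 h1).symm.dvd.trans hπt)
      rcases unit_cases hu' with h | h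
      · exact Or.inl h
      · exact Or.inr (Or.inl h)
  -- `ϖ'` is `3` modulo `8`
  have h3 : ‖em (iw hi ι) ϖ' - ((3 : ℤ) : PadicAlgCl 2)‖ ≤ 1 / 8 := by
    have h1 : (em (iw hi ι) ϖ') ^ 2 = em (iw hi ι) ϖ' - 2 := by
      have e : ϖ' ^ 2 = ϖ' - 2 := by
        rcases hϖ with ⟨rfl, rfl⟩ | ⟨rfl, rfl⟩
        · linear_combination (-1 : OO) * om_mul
        · linear_combination (-1 : OO) * om_mul
      rw [← map_pow, e, map_sub, map_ofNat]
    have h2 : ¬ ϖ ∣ ϖ' := by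
      intro h
      have h4 : ϖ ∣ ϖ + ϖ' := dvd_add dvd_rfl h
      have e : ϖ + ϖ' = 1 := by
        rcases hϖ with ⟨rfl, rfl⟩ | ⟨rfl, rfl⟩ <;> ring
      rw [e] at h4
      exact hϖp.not_isUnit (isUnit_of_dvd_one h4)
    push_cast
    exact norm_three h1 (eq_one_of_not_lt (iw hi ι) ((dvd_iff (iw hi ι) hϖp hι' ϖ').not.1 h2))
  have hneg : ∀ {x : OO} {b : ℤ}, ‖em (iw hi ι) x - b‖ ≤ 1 / 8 →
      ‖em (iw hi ι) (-x) - ((-b : ℤ) : PadicAlgCl 2)‖ ≤ 1 / 8 := by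
    intro x b h
    have e : em (iw hi ι) (-x) - ((-b : ℤ) : PadicAlgCl 2) = -(em (iw hi ι) x - b) := by
      rw [map_neg]
      push_cast
      ring
    rw [e, norm_neg]
    exact h
  have h11 : ‖em (iw hi ι) (1 : OO) - ((1 : ℤ) : PadicAlgCl 2)‖ ≤ 1 / 8 := by
    rw [map_one, Int.cast_one, sub_self, norm_zero]
    norm_num
  rcases hδ4 with h | h | h | h
  · rw [h, map_one] at hs
    have h1 : σ₀ s = s := by
      rcases sq_eq_one_iff.1 hs with h2 | h2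
      · rw [h2, map_one]
      · rw [h2, map_neg, map_one]
    have h5 : ‖c' σ₀‖ < 1 := md_zero.1 ((hk σ₀).1 h1)
    rw [hone, norm_one] at h5
    exact lt_irrefl _ h5
  · rw [h] at hst2
    exact size (iw hi ι) (z := -1) (k := -1) (n := 1) hst2 (hneg h11) (by norm_num) (by norm_num)
      (by norm_num)
  · rw [h] at hst2
    exact size (iw hi ι) (z := 3) (k := 1) (n := 1) hst2 h3 (by norm_num) (by norm_num)
      (by norm_num)
  · rw [h] at hst2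
    exact size (iw hi ι) (z := -3) (k := -1) (n := 2) hst2 (hneg h3) (by norm_num) (by norm_num)
      (by norm_num)

include hi in
/-- a class of the trivial character which is unramified everywhere is zero -/
theorem vanish_one {c : GK i₀ → ℚ_[2]} (hc : Coc 1 c)
    (hall : ∀ (p : ℕ) [Fact p.Prime] (ι : QB →ₐ[ℚ] PadicAlgCl p), CobOn 1 (II ι) c) :
    ∀ σ, c σ = 0 := by
  classical
  by_contra hcon
  push Not at hcon
  obtain ⟨σ₁, hσ₁⟩ := hcon
  have hχ : Continuous (1 : GK i₀ →* ℤ_[2]ˣ) := continuous_const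
  obtain ⟨a, ha, hint0, σ₀, hσ₀⟩ := exists_scale hc.cont hσ₁
  have hcc : Coc 1 (fun σ => a * c σ + (vl 1 σ - 1) * 0) := hc.twist hχ a 0
  set c' : GK i₀ → ℚ_[2] := fun σ => a * c σ + (vl 1 σ - 1) * 0 with hc'
  have hint : ∀ σ, ‖c' σ‖ ≤ 1 := by
    intro σ
    rw [hc']
    simp only [mul_zero, add_zero]
    exact hint0 σ
  have hone : c' σ₀ = 1 := by
    rw [hc']
    simp only [mul_zero, add_zero]
    exact hσ₀
  have hall' : ∀ (p : ℕ) [Fact p.Prime] (ι : QB →ₐ[ℚ] PadicAlgCl p),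
      ∀ σ ∈ (II ι : Set (GK i₀)), c' σ = 0 := by
    intro p _ κ σ hσ
    obtain ⟨z, hz⟩ := (hall p κ).twist a 0
    have h1 := hz σ hσ
    have h2 : vl (1 : GK i₀ →* ℤ_[2]ˣ) σ = 1 := by simp [vl]
    rw [h2, sub_self, zero_mul] at h1
    exact h1
  obtain ⟨δ, hδ, hkum⟩ := kum hi (md c') (md_cont hcc) (md_mul hcc hint)
  obtain ⟨s, hs⟩ : ∃ s : QB, s ^ 2 = em hi δ := IsAlgClosed.exists_pow_nat_eq _ (by norm_num)
  have hk : ∀ σ : GK i₀, σ s = s ↔ md c' σ = 0 := hkum s hs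
  have hmd : ∀ σ, c' σ = 0 → md c' σ = 0 := fun σ h => md_zero.2 (by rw [h, norm_zero]; norm_num)
  have hu' : IsUnit δ := by
    by_contra hcon
    obtain ⟨π, hπ, hπt⟩ := WfDvdMonoid.exists_irreducible_factor hcon hδ.ne_zero
    have hπp : Prime π := irreducible_iff_prime.1 hπ
    obtain ⟨l, hl, κ, hκ⟩ := exists_emb hi hπp
    rw [ι_em] at hκ
    refine not_dvd_of_fix (iw hi κ) hπp hκ hδ (s := κ s) ?_ ?_ hπt
    · rw [← map_pow, hs, ι_em]
    · intro τ hin hτ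
      exact fix_I (fun σ hσ => (hk σ).2 (hmd σ (hall' l κ σ hσ))) τ hin hτ
  rcases unit_cases hu' with h | h
  · rw [h, map_one] at hs
    have h1 : σ₀ s = s := by
      rcases sq_eq_one_iff.1 hs with h2 | h2
      · rw [h2, map_one]
      · rw [h2, map_neg, map_one]
    have h5 : ‖c' σ₀‖ < 1 := md_zero.1 ((hk σ₀).1 h1)
    rw [hone, norm_one] at h5
    exact lt_irrefl _ h5
  · rw [h, map_neg, map_one] at hs
    obtain ⟨p, hpf, ι, hι⟩ := exists_emb hi prime_om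
    have hp2 : p = 2 := by
      rw [ι_em] at hι
      exact (two_of_dvd prime_om (iw hi ι) hι).2 ⟨_, om_mul.symm⟩
    subst hp2
    have hfix : ∀ τ : Au 2, Inert τ → τ (ι i₀) = ι i₀ → τ (1 + ι s) = 1 + ι s := by
      intro τ hin hτ
      rw [map_add, map_one]
      congr 1
      exact fix_I (fun σ hσ => (hk σ).2 (hmd σ (hall' 2 ι σ hσ))) τ hin hτ
    have hs2 : (ι s) ^ 2 = -1 := by rw [← map_pow, hs, map_neg, map_one]
    have e : (1 + ι s) ^ 2 = 2 * ι s := by linear_combination hs2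
    have hns : ‖ι s‖ = 1 := by
      have h1 := congrArg norm hs2
      rw [norm_pow, norm_neg, norm_one] at h1
      exact (pow_eq_one_iff_of_nonneg (norm_nonneg _) two_ne_zero).1 h1
    have hn : ‖1 + ι s‖ ^ 2 = 1 / 2 := by
      rw [← norm_pow, e, norm_mul, hns, mul_one, Pool.Agent.Y715.Gi.norm_two']
      norm_num
    have h0 : (1 + ι s) ≠ 0 := by
      intro h
      rw [h, norm_zero] at hn
      norm_num at hn
    obtain ⟨m, hm⟩ := norm_odd (iw hi ι) (by norm_num) h0 hfix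
    rw [hm] at hn
    push_cast at hn
    rw [← zpow_natCast, ← zpow_mul, one_div, ← zpow_neg_one] at hn
    have h4 := zpow_right_injective₀ (a := (2 : ℝ)) (by norm_num) (by norm_num) hn
    push_cast at h4
    omega

section

variable {κ κ' : GK i₀ →* ℤ_[2]ˣ} {D : OO} {r I : QB}

/-- the values of the character `κ ^ a κ' ^ b` on the inertia groups -/
lemma KD.inAB (kd : KD hi κ κ' D r I) (a b : ℤ) {p : ℕ} [Fact p.Prime] (hp : p ≠ 2)
    {ι : QB →ₐ[ℚ] PadicAlgCl p} {τ : Au p} {σ : GK i₀} (hc : Cmp ι τ σ) (hin : Inert τ) :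
    (σ r = r → (κ ^ a * κ' ^ b : GK i₀ →* ℤ_[2]ˣ) σ = 1) ∧
      (σ r = -r → (κ ^ a * κ' ^ b : GK i₀ →* ℤ_[2]ˣ) σ = (-1) ^ (a + b)) := by
  have hap : (κ ^ a * κ' ^ b : GK i₀ →* ℤ_[2]ˣ) σ = (κ σ) ^ a * (κ' σ) ^ b := rfl
  obtain ⟨n1, n2⟩ := norm_w_odd hi hp ι
  have hσI := kd.fixI hi hp hc hin
  have a1 := kd.inert p ι τ σ hc hin n1
  have a2 := kd.inert' p ι τ σ hc hin n2
  rw [hap]
  constructor
  · intro h
    rw [a1.1 (by rw [map_mul, hσI, h]), a2.1 h, one_zpow, one_zpow, one_mul]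
  · intro h
    rw [a1.2 (by rw [map_mul, hσI, h, mul_neg]), a2.2 h, ← zpow_add]

lemma KD.contAB (kd : KD hi κ κ' D r I) (a b : ℤ) :
    Continuous (κ ^ a * κ' ^ b : GK i₀ →* ℤ_[2]ˣ) := by
  have h1 : Continuous fun σ => (κ σ) ^ a * (κ' σ) ^ b :=
    (kd.cont.zpow a).mul (kd.cont'.zpow b)
  exact h1

/-- the characters of even weight are unramified outside two -/
lemma KD.unrAB (kd : KD hi κ κ' D r I) {a b : ℤ} (hab : Even (a + b)) :
    Unr (κ ^ a * κ' ^ b : GK i₀ →* ℤ_[2]ˣ) := by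
  rintro p _ ι hp σ ⟨τ, hτ, hin⟩
  obtain ⟨h1, h2⟩ := kd.inAB hi a b hp hτ hin
  rcases rt_or hi kd.hr σ with h | h
  · exact h1 h
  · rw [h2 h, hab.neg_one_zpow]

/-- the character `κ ^ a κ' ^ b` of odd weight -/
theorem chiAB (kd : KD hi κ κ' D r I) {a b : ℤ} (hab : Odd (a + b)) :
    ∃ (m : OO) (s : QB), (m = D ∨ m = -D) ∧ ChiD hi (κ ^ a * κ' ^ b) m s := by
  have hap : ∀ σ, (κ ^ a * κ' ^ b : GK i₀ →* ℤ_[2]ˣ) σ = (κ σ) ^ a * (κ' σ) ^ b :=
    fun σ => rfl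
  have hinert : ∀ (p : ℕ) [Fact p.Prime] (ι : QB →ₐ[ℚ] PadicAlgCl p) (τ : Au p) (σ : GK i₀),
      p ≠ 2 → Cmp ι τ σ → Inert τ → (σ r = r → (κ ^ a * κ' ^ b : GK i₀ →* ℤ_[2]ˣ) σ = 1) ∧
        (σ r = -r → (κ ^ a * κ' ^ b : GK i₀ →* ℤ_[2]ˣ) σ = -1) := by
    intro p _ ι τ σ hp hc hin
    obtain ⟨h1, h2⟩ := kd.inAB hi a b hp hc hin
    exact ⟨h1, fun h => by rw [h2 h, hab.neg_one_zpow]⟩
  rcases Int.even_or_odd a with ha | ha
  · -- `a` even
    obtain ⟨k, hk⟩ := ha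
    have hk' : a = 2 * k := by omega
    obtain ⟨l, hl⟩ : ∃ l, b = 2 * l + 1 := by
      obtain ⟨l, hl⟩ := hab
      exact ⟨l - k, by omega⟩
    have hph : ∀ σ, ph ((κ ^ a * κ' ^ b : GK i₀ →* ℤ_[2]ˣ) σ) = ph (κ' σ) := by
      intro σ
      rw [hap, map_mul, map_zpow, map_zpow, hk', zpow_even (sq_four _), one_mul, hl, zpow_add,
        zpow_even (sq_four _), zpow_one, one_mul]
    refine ⟨D, r, Or.inl rfl, kd.contAB hi a b, kd.hr, ?_, ?_, hinert⟩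
    · intro σ h
      rw [← ph_one, hph]
      exact kd.one' σ h
    · intro σ h
      rw [← ph_neg, hph]
      exact kd.neg' σ h
  · -- `a` odd
    obtain ⟨k, hk⟩ := ha
    obtain ⟨l, hl⟩ : ∃ l, b = 2 * l := by
      obtain ⟨l, hl⟩ := hab
      exact ⟨l - k, by omega⟩
    have hph : ∀ σ, ph ((κ ^ a * κ' ^ b : GK i₀ →* ℤ_[2]ˣ) σ) = ph (κ σ) := by
      intro σ
      rw [hap, map_mul, map_zpow, map_zpow, hl, zpow_even (sq_four _), mul_one, hk, zpow_add,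
        zpow_even (sq_four _), zpow_one, one_mul]
    refine ⟨-D, I * r, Or.inr rfl, kd.contAB hi a b, ?_, ?_, ?_, ?_⟩
    · rw [mul_pow, kd.hI, kd.hr, map_neg]
      ring
    · intro σ h
      rw [← ph_one, hph]
      exact kd.one σ h
    · intro σ h
      rw [← ph_neg, hph]
      exact kd.neg σ h
    · intro p _ ι τ σ hp hc hin
      have hσI := kd.fixI hi hp hc hin
      have hI0 : I ≠ 0 := by
        rintro h0
        have := kd.hI
        rw [h0] at this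
        norm_num at this
      obtain ⟨a1, a2⟩ := hinert p ι τ σ hp hc hin
      constructor
      · intro h
        apply a1
        rw [map_mul, hσI] at h
        exact mul_left_cancel₀ hI0 h
      · intro h
        apply a2
        rw [map_mul, hσI, ← mul_neg] at h
        exact mul_left_cancel₀ hI0 h

/-- **The vanishing of the Selmer groups of `κ ^ a κ' ^ b`.** -/
theorem vanishAB {n : ℕ} {q : Fin n → OO} (hq : ∀ i, Pr (q i)) (hinj : Function.Injective q)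
    (h8 : (8 : OO) ∣ ∏ i, q i - 5) (hind : Indec q) (hD : D = ∏ i, q i ∨ D = -∏ i, q i)
    (kd : KD hi κ κ' D r I) (a b : ℤ) {ϖ ϖ' : OO}
    (hϖ : (ϖ = om ∧ ϖ' = 1 - om) ∨ (ϖ = 1 - om ∧ ϖ' = om))
    {c : GK i₀ → ℚ_[2]} (hc : Coc (κ ^ a * κ' ^ b) c)
    (hodd : ∀ (p : ℕ) [Fact p.Prime] (ι : QB →ₐ[ℚ] PadicAlgCl p), p ≠ 2 →
      CobOn (κ ^ a * κ' ^ b) (II ι) c)
    (hstr : ∀ ι : QB →ₐ[ℚ] PadicAlgCl 2, ‖ι (em hi ϖ)‖ < 1 →
      CobOn (κ ^ a * κ' ^ b) (DD ι) c) :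
    ∃ y : ℚ_[2], ∀ σ, c σ = (vl (κ ^ a * κ' ^ b) σ - 1) * y := by
  rcases Int.even_or_odd (a + b) with hab | hab
  · exact vanish_unr hi (kd.contAB hi a b) (kd.unrAB hi hab) hϖ hc hodd hstr
  · obtain ⟨m, s, hm, cd⟩ := chiAB hi kd hab
    refine main hi hq hinj h8 hind ?_ cd hϖ hc hodd hstr
    rcases hm with rfl | rfl
    · exact hD
    · rcases hD with h | h
      · right; rw [h]
      · left; rw [h, neg_neg]

end

end Pool.Agent.R384
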